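import Pool.Agent.Lib.MP_39c2b7_co.H44.Certs
import Pool.Agent.Lib.MP_39c2b7_co.Data.Pats

/-! The hub certificates are correct. -/

namespace StrongArb.H44

open StrongArb

/-- check of a list of hub certificates -/
def okAll (links : List (List (List ℕ))) (n : ℕ) (l : List HubCert) : Bool :=
  l.all (fun c => c.okB links && Nat.blt c.pat n)

lemma okAll_sound {links : List (List (List ℕ))} {n : ℕ} {l : List HubCert}
    (h : okAll links n l = true) : ∀ c ∈ l, c.okB links = true ∧ c.pat < n := by
  intro c hc
  have h1 := List.all_eq_true.1 h c hc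
  rw [Bool.and_eq_true] at h1
  refine ⟨h1.1, ?_⟩
  have h2 := h1.2
  rw [Nat.blt_eq] at h2
  exact h2

theorem ok_csF1 : okAll Data.links 77 csF1 = true := by decide +kernel

theorem ok_csF2 : okAll Data.links 77 csF2 = true := by decide +kernel

theorem ok_cs4 : okAll Data.links 77 cs4 = true := by decide +kernel

theorem ok_cs5 : okAll Data.links 77 cs5 = true := by decide +kernel

theorem ok_cs7 : okAll Data.links 77 cs7 = true := by decide +kernel

theorem ok_cs8 : okAll Data.links 77 cs8 = true := by decide +kernel

theorem hubok : ∀ c ∈ cs, c.okB Data.links = true ∧ c.pat < 77 := by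
  intro c hc
  unfold cs at hc
  rcases List.mem_append.1 hc with h | hc
  · exact okAll_sound ok_csF1 c h
  rcases List.mem_append.1 hc with h | hc
  · exact okAll_sound ok_csF2 c h
  rcases List.mem_append.1 hc with h | hc
  · exact okAll_sound ok_cs4 c h
  rcases List.mem_append.1 hc with h | hc
  · exact okAll_sound ok_cs5 c h
  rcases List.mem_append.1 hc with h | h
  · exact okAll_sound ok_cs7 c h
  · exact okAll_sound ok_cs8 c h

end StrongArb.H44
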