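import Pool.Agent.Lib.MP_39c2b7_co.H44.Cyc

/-!
# Strong arboricity: bounds for hubs and for low vertices
-/

namespace StrongArb.H44

open StrongArb

lemma shiftCost_recv (W : WTable) (r : ℕ) : ShiftCost (W.recv r) := by
  intro A B s i
  unfold WTable.recv
  simp only [sh]
  have e1 : i + 1 + s = i + s + 1 := by ring
  have e2 : i + 2 + s = i + s + 2 := by ring
  rw [e1, e2]

/-- classes that are not excluded by the six bits of `x` -/
def clsL (x : ℕ) : List ℕ :=
  (if Nat.beq (Nat.land x 7) 7 then [] else [6]) ++ ((if x.testBit 3 then [] else [7]) ++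
    ((if x.testBit 4 then [] else [8]) ++ (if x.testBit 5 then [] else [9])))

lemma mem_clsL {x v : ℕ} (h1 : 4 ≤ v) (h2 : v ≤ 9) (h : x.testBit (v - 4) = false) :
    kc v ∈ clsL x := by
  unfold clsL kc
  have h7 : ∀ k, k < 3 → x.testBit k = false → Nat.beq (Nat.land x 7) 7 = false := by
    intro k hk hx
    by_contra hc
    have hc1 : Nat.beq (Nat.land x 7) 7 = true := by simpa using hc
    have hc2 : x &&& 7 = 7 := Nat.eq_of_beq_eq_true hc1
    have hc3 : (x &&& 7).testBit k = (7 : ℕ).testBit k := by rw [hc2]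
    rw [Nat.testBit_and, hx, Bool.false_and] at hc3
    interval_cases k <;> exact absurd hc3 (by decide)
  have m1 : ∀ k, k < 3 → x.testBit k = false → 6 ∈ clsL x := by
    intro k hk hx
    unfold clsL
    rw [h7 k hk hx]
    exact List.mem_append_left _ (by simp)
  unfold clsL at m1
  interval_cases v
  · exact m1 0 (by norm_num) h
  · exact m1 1 (by norm_num) h
  · exact m1 2 (by norm_num) h
  · have h' : x.testBit 3 = false := h
    rw [h']
    exact List.mem_append_right _ (List.mem_append_left _ (by simp))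
  · have h' : x.testBit 4 = false := h
    rw [h']
    exact List.mem_append_right _ (List.mem_append_right _ (List.mem_append_left _ (by simp)))
  · have h' : x.testBit 5 = false := h
    rw [h']
    exact List.mem_append_right _ (List.mem_append_right _ (List.mem_append_right _ (by simp)))

/-- six bits of `m` -/
def fld (m o : ℕ) : ℕ := (m >>> o) % 64

lemma fld_testBit {m o k : ℕ} (hk : k < 6) : (fld m o).testBit k = m.testBit (o + k) := by
  unfold fld
  have : (64 : ℕ) = 2 ^ 6 := by norm_num
  rw [this, Nat.testBit_mod_two_pow, Nat.testBit_shiftRight]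
  simp [hk]

/-- check of a fact on the amount received -/
def factB (W : WTable) (r m c : ℕ) : Bool :=
  ((fld m 12).testBit 0 || (clsL (fld m 24)).all (fun x => (clsL (fld m 18)).all (fun y =>
    (clsL (fld m 0)).all (fun z => Nat.ble (W.w4 r x y z) c)))) &&
  ((fld m 12).testBit 1 || (clsL (fld m 24)).all (fun x => (clsL (fld m 18)).all (fun y =>
    (clsL (fld m 6)).all (fun z => (clsL (fld m 0)).all (fun u =>
      Nat.ble (W.w5 r x y z u) c)))))

lemma factB_sound {W : WTable} {r m c : ℕ} (h : factB W r m c = true) :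
    FactOk (W.recv r) m c := by
  intro A B hA hB hn
  have nA : ∀ j, m.testBit (12 * j + (A j - 4)) = false := by
    intro j
    by_contra hc
    exact hn ⟨j, Or.inl (by simpa using hc)⟩
  have nB : ∀ j, m.testBit (12 * j + 6 + (B j - 4)) = false := by
    intro j
    by_contra hc
    exact hn ⟨j, Or.inr (by simpa using hc)⟩
  have cA : ∀ j o, o = 12 * j → kc (A j) ∈ clsL (fld m o) := by
    intro j o ho
    have := hA j
    refine mem_clsL this.1 this.2 ?_
    rw [fld_testBit (by omega), ho]
    exact nA j
  have cB : ∀ j o, o = 12 * j + 6 → kc (B j) ∈ clsL (fld m o) := by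
    intro j o ho
    have := hB j
    refine mem_clsL this.1 this.2 ?_
    rw [fld_testBit (by omega), ho]
    exact nB j
  unfold factB at h
  simp only [Bool.and_eq_true, Bool.or_eq_true] at h
  have h2 := hA 1
  unfold WTable.recv
  simp only [Nat.zero_add]
  split_ifs with h4 h5
  · have hb : (fld m 12).testBit 0 = false := by
      rw [fld_testBit (by norm_num)]
      have := nA 1
      rw [h4] at this
      exact this
    have hh := h.1.resolve_left (by rw [hb]; simp)
    have h3 := List.all_eq_true.1 hh _ (cA 2 24 rfl)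
    have h3 := List.all_eq_true.1 h3 _ (cB 1 18 rfl)
    have h3 := List.all_eq_true.1 h3 _ (cA 0 0 rfl)
    exact Nat.le_of_ble_eq_true h3
  · have hb : (fld m 12).testBit 1 = false := by
      rw [fld_testBit (by norm_num)]
      have := nA 1
      rw [h5] at this
      exact this
    have hh := h.2.resolve_left (by rw [hb]; simp)
    have h3 := List.all_eq_true.1 hh _ (cA 2 24 rfl)
    have h3 := List.all_eq_true.1 h3 _ (cB 1 18 rfl)
    have h3 := List.all_eq_true.1 h3 _ (cB 0 6 rfl)
    have h3 := List.all_eq_true.1 h3 _ (cA 0 0 rfl)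
    exact Nat.le_of_ble_eq_true h3
  · exact Nat.zero_le _

/-- check of a list of facts -/
def factsB (W : WTable) (r : ℕ) (facts : List (ℕ × ℕ)) : Bool :=
  facts.all (fun q => Nat.blt q.1 68719476736 && factB W r q.1 q.2)

lemma factsB_sound {W : WTable} {r n : ℕ} {facts : List (ℕ × ℕ)} (hn : 3 ≤ n)
    (h : factsB W r facts = true) : FactsOk n (W.recv r) facts := by
  intro q hq
  have h1 := List.all_eq_true.1 h q hq
  simp only [Bool.and_eq_true] at h1
  refine ⟨?_, factB_sound h1.2⟩
  have h2 := h1.1
  rw [Nat.blt_eq] at h2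
  calc q.1 < 68719476736 := h2
    _ = 2 ^ 36 := by norm_num
    _ ≤ 2 ^ (12 * n) := Nat.pow_le_pow_right (by norm_num) (by omega)

/-- hubs of degree 7 and 8 -/
theorem combAt_cyc {W : WTable} {M D T : ℕ} {facts : List (ℕ × ℕ)} {cs bcs : List HubCert}
    {ts : List Tr} {root : Tr} (hD : 3 ≤ D)
    (hf : factsB W (kc (if D ≤ 8 then D else 9)) facts = true) (hsub : ∀ c ∈ bcs, c ∈ cs)
    (h0 : Nat.beq (tabN (12 * D) T 0) (cl44 0) = true)
    (hb : chkBase D (tabN (12 * D) T) bcs 1 = true)
    (hl : chkAll (parC D T facts (M * (D - 6))) ts (1 + bcs.length) = true)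
    (hr : chk (parC D T facts (M * (D - 6))) (1 + bcs.length + ts.length) root 0 = true) :
    CombAt W M cs D := by
  intro A B hseq hav
  by_contra hcon
  exact cyc_sound (shiftCost_recv W _) (factsB_sound hD hf) hsub h0 hb hl hr A B
    ⟨hseq, hav, by omega⟩

/-- hubs of larger degree -/
theorem combAt_lin {W : WTable} {D T : ℕ} {states facts : List (ℕ × ℕ)}
    {cs bcs : List HubCert} {p0 : ℕ} {ts : List Tr} (hD : 9 ≤ D)
    (hf : factsB W 9 facts = true) (hsub : ∀ c ∈ bcs, c ∈ cs)
    (h0 : Nat.beq (tabN 60 T 0) (cl44 0) = true)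
    (hb : chkBaseL (tabN 60 T) bcs 1 = true)
    (hst : chkSt T states facts (1 + bcs.length) 4 states ts = true)
    (hfirst : (0, p0) ∈ states) : CombAt W 12 cs D := by
  intro A B hseq hav
  have hk : kc (if D ≤ 8 then D else 9) = 9 := by
    rw [if_neg (by omega)]
    rfl
  rw [hk]
  have h1 := lin_sound (D := D) (by omega) (shiftCost_recv W 9)
    (fun q hq => (factsB_sound (n := 3) (le_refl 3) hf q hq).2) hsub h0 hb hst hfirst A B
    ⟨hseq, fun c hc h => hav c hc (Or.inl h)⟩
  omega

/-! ## low vertices -/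

/-- number of small neighbours -/
def lowCost (A _B : ℕ → ℕ) (i : ℕ) : ℕ := if 7 ≤ A (i + 1) then 0 else 1

lemma shiftCost_low : ShiftCost lowCost := by
  intro A B s i
  have e1 : i + 1 + s = i + s + 1 := by ring
  show (if 7 ≤ A (i + 1 + s) then 0 else 1) = (if 7 ≤ A (i + s + 1) then 0 else 1)
  rw [e1]

def factLowB (m c : ℕ) : Bool := Nat.ble 1 c || Nat.beq (Nat.land (fld m 12) 7) 7

lemma factLowB_sound {m c : ℕ} (h : factLowB m c = true) : FactOk lowCost m c := by
  intro A B hA hB hn
  unfold lowCost
  simp only [Nat.zero_add]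
  split_ifs with h7
  · exact Nat.zero_le _
  · unfold factLowB at h
    rw [Bool.or_eq_true] at h
    rcases h with h | h
    · exact Nat.le_of_ble_eq_true h
    · exfalso
      have h2 : fld m 12 &&& 7 = 7 := Nat.eq_of_beq_eq_true h
      have h3 := hA 1
      have h4 : (fld m 12).testBit (A 1 - 4) = false := by
        rw [fld_testBit (by omega)]
        by_contra hc
        exact hn ⟨1, Or.inl (by simpa using hc)⟩
      have h5 : (fld m 12 &&& 7).testBit (A 1 - 4) = (7 : ℕ).testBit (A 1 - 4) := by rw [h2]
      rw [Nat.testBit_and, h4, Bool.false_and] at h5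
      have h6 : A 1 - 4 = 0 ∨ A 1 - 4 = 1 ∨ A 1 - 4 = 2 := by omega
      rcases h6 with h6 | h6 | h6 <;> rw [h6] at h5 <;> exact absurd h5 (by decide)

def factsLowB (facts : List (ℕ × ℕ)) : Bool :=
  facts.all (fun q => Nat.blt q.1 68719476736 && factLowB q.1 q.2)

lemma factsLowB_sound {n : ℕ} {facts : List (ℕ × ℕ)} (hn : 3 ≤ n)
    (h : factsLowB facts = true) : FactsOk n lowCost facts := by
  intro q hq
  have h1 := List.all_eq_true.1 h q hq
  simp only [Bool.and_eq_true] at h1
  refine ⟨?_, factLowB_sound h1.2⟩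
  have h2 := h1.1
  rw [Nat.blt_eq] at h2
  calc q.1 < 68719476736 := h2
    _ = 2 ^ 36 := by norm_num
    _ ≤ 2 ^ (12 * n) := Nat.pow_le_pow_right (by norm_num) (by omega)

lemma filter_add_sum (A : ℕ → ℕ) (D : ℕ) :
    ((List.range D).filter (fun i => decide (7 ≤ A i))).length +
      ∑ i ∈ Finset.range D, (if 7 ≤ A i then 0 else 1) = D := by
  induction D with
  | zero => simp
  | succ D ih =>
    rw [List.range_succ, List.filter_append, List.length_append, Finset.sum_range_succ]
    by_cases h : 7 ≤ A D
    · simp only [h, decide_true, List.filter_cons_of_pos, List.filter_nil, List.length_cons,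
        List.length_nil, if_true]
      omega
    · have hd : decide (7 ≤ A D) = false := by simpa using h
      rw [List.filter_cons_of_neg (by simpa using h), if_neg h]
      simp only [List.filter_nil, List.length_nil]
      omega

theorem lowAt_of {D k T : ℕ} {facts : List (ℕ × ℕ)} {cs bcs : List HubCert}
    {ts : List Tr} {root : Tr} (hD : 3 ≤ D) (hk : k ≤ D) (hf : factsLowB facts = true)
    (hsub : ∀ c ∈ bcs, c ∈ cs)
    (h0 : Nat.beq (tabN (12 * D) T 0) (cl44 0) = true)
    (hb : chkBase D (tabN (12 * D) T) bcs 1 = true)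
    (hl : chkAll (parC D T facts (D - k)) ts (1 + bcs.length) = true)
    (hr : chk (parC D T facts (D - k)) (1 + bcs.length + ts.length) root 0 = true) :
    LowAt cs D k := by
  intro A B hseq hav
  by_contra hcon
  refine cyc_sound shiftCost_low (factsLowB_sound hD hf) hsub h0 hb hl hr A B
    ⟨hseq, hav, ?_⟩
  have h1 := filter_add_sum A D
  have h2 : ∑ i ∈ Finset.range D, lowCost A B i =
      ∑ i ∈ Finset.range D, (if 7 ≤ A i then 0 else 1) :=
    sum_shift (f := fun i => if 7 ≤ A i then 0 else 1) (by
      intro i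
      simp only [hseq.perA]) 1
  rw [h2]
  omega

end StrongArb.H44
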