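import Pool.Agent.Lib.MP_39c2b7_co.H44.Engine

/-!
# Strong arboricity: cyclic and linear checks
-/

namespace StrongArb.H44

open StrongArb

/-- a cost at every position, compatible with shifts -/
def ShiftCost (cost : (ℕ → ℕ) → (ℕ → ℕ) → ℕ → ℕ) : Prop :=
  ∀ A B r i, cost (sh A r) (sh B r) i = cost A B (i + r)

/-- the fact: if the mask `m` is not hit, the cost at position 0 is at most `c` -/
def FactOk (cost : (ℕ → ℕ) → (ℕ → ℕ) → ℕ → ℕ) (m c : ℕ) : Prop :=
  ∀ A B, Rng A → Rng B → ¬ Hit m A B → cost A B 0 ≤ c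

lemma sum_shift {f : ℕ → ℕ} {n : ℕ} (hf : ∀ i, f (i + n) = f i) (r : ℕ) :
    ∑ i ∈ Finset.range n, f (i + r) = ∑ i ∈ Finset.range n, f i := by
  induction r with
  | zero => simp
  | succ r ih =>
    have h1 := Finset.sum_range_succ (fun i => f (i + r)) n
    have h2 := Finset.sum_range_succ' (fun i => f (i + r)) n
    have h3 : f (n + r) = f (0 + r) := by
      rw [Nat.add_comm n r, hf, Nat.zero_add]
    have h4 : ∑ i ∈ Finset.range n, f (i + (r + 1)) = ∑ i ∈ Finset.range n, f (i + 1 + r) := by
      apply Finset.sum_congr rfl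
      intro i _
      congr 1
      ring
    rw [h4, ← ih]
    simp only [h3] at h1
    omega

lemma sum_mul {f : ℕ → ℕ} {n : ℕ} (hf : ∀ i, f (i + n) = f i) (m : ℕ) :
    ∑ i ∈ Finset.range (m * n), f i = m * ∑ i ∈ Finset.range n, f i := by
  have hf' : ∀ m i, f (m * n + i) = f i := by
    intro m
    induction m with
    | zero => intro i; simp
    | succ m ih =>
      intro i
      rw [← ih i, ← hf (m * n + i)]
      congr 1
      ring
  induction m with
  | zero => simp
  | succ m ih =>
    rw [Nat.succ_mul, Finset.sum_range_add, ih]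
    simp only [hf']
    ring

/-! ## cyclic case -/

/-- counterexamples to the bound `cap` -/
structure GoodC (n : ℕ) (cs : List HubCert) (cost : (ℕ → ℕ) → (ℕ → ℕ) → ℕ → ℕ) (cap : ℕ)
    (A B : ℕ → ℕ) : Prop where
  seq : StatSeq n A B
  avoid : ∀ c ∈ cs, (c.D = 0 ∨ c.D = n) → ∀ s, ¬ c.Holds A B s
  big : cap < ∑ i ∈ Finset.range n, cost A B i

lemma statSeq_sh {n : ℕ} {A B : ℕ → ℕ} (h : StatSeq n A B) (r : ℕ) :
    StatSeq n (sh A r) (sh B r) where
  perA i := by
    show A (i + n + r) = A (i + r)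
    rw [← h.perA (i + r)]
    congr 1
    ring
  perB i := by
    show B (i + n + r) = B (i + r)
    rw [← h.perB (i + r)]
    congr 1
    ring
  rangeA i := h.rangeA _
  rangeB i := h.rangeB _
  four i hi := by
    have e : i + 1 + r = i + r + 1 := by ring
    simp only [sh] at hi ⊢
    rw [e] at hi ⊢
    exact h.four _ hi
  no44 i hi := by
    have e : i + 1 + r = i + r + 1 := by ring
    simp only [sh] at hi
    rw [e] at hi
    exact h.no44 _ hi

lemma avoid_sh {c : HubCert} {A B : ℕ → ℕ} (h : ∀ s, ¬ c.Holds A B s) (r s : ℕ) :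
    ¬ c.Holds (sh A r) (sh B r) s := by
  intro hc
  apply h (s + r)
  intro j
  have := hc j
  simp only [sh] at this
  have e : s + j + r = s + r + j := by ring
  rw [e] at this
  exact this

lemma cost_per {cost : (ℕ → ℕ) → (ℕ → ℕ) → ℕ → ℕ} (hc : ShiftCost cost) {n : ℕ} {A B : ℕ → ℕ}
    (h : StatSeq n A B) (i : ℕ) : cost A B (i + n) = cost A B i := by
  rw [← hc A B n i]
  have e1 : sh A n = A := funext h.perA
  have e2 : sh B n = B := funext h.perB
  rw [e1, e2]

lemma GoodC.sh {n : ℕ} {cs : List HubCert} {cost : (ℕ → ℕ) → (ℕ → ℕ) → ℕ → ℕ} {cap : ℕ}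
    {A B : ℕ → ℕ} (hc : ShiftCost cost) (h : GoodC n cs cost cap A B) (r : ℕ) :
    GoodC n cs cost cap (sh A r) (sh B r) where
  seq := statSeq_sh h.seq r
  avoid c hcs hD s := avoid_sh (h.avoid c hcs hD) r s
  big := by
    have h1 : ∑ i ∈ Finset.range n, cost (H44.sh A r) (H44.sh B r) i =
        ∑ i ∈ Finset.range n, cost A B (i + r) :=
      Finset.sum_congr rfl (fun i _ => hc A B r i)
    rw [h1, sum_shift (fun i => cost_per hc h.seq i)]
    exact h.big

lemma per_mod {A : ℕ → ℕ} {n : ℕ} (h : ∀ i, A (i + n) = A i) (i : ℕ) : A (i % n) = A i :=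
  Function.Periodic.map_mod_nat h i

/-- sum of facts -/
def bnd (n : ℕ) (facts : List (ℕ × ℕ)) (cap s : ℕ) : List ℕ → ℕ → ℕ → Bool
  | [], i, acc => Nat.beq i n && Nat.ble acc cap
  | f :: t, i, acc => Nat.blt i n &&
    (match facts[f]? with
      | some q => subB (rotc n q.1 i) s && bnd n facts cap s t (i + 1) (acc + q.2)
      | none => false)

/-- number `k` of the table `T` -/
def tabN (w T k : ℕ) : ℕ := (T >>> (w * k)) % 2 ^ w

/-- the parameters of the cyclic check -/
def parC (n T : ℕ) (facts : List (ℕ × ℕ)) (cap : ℕ) : Par where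
  rot := rotc n
  rok r := Nat.blt r n
  nx i := (i + 1) % n
  tab := tabN (12 * n) T
  xb d s := bnd n facts cap s d 0 0

/-- all facts hold -/
def FactsOk (n : ℕ) (cost : (ℕ → ℕ) → (ℕ → ℕ) → ℕ → ℕ) (facts : List (ℕ × ℕ)) : Prop :=
  ∀ q ∈ facts, q.1 < 2 ^ (12 * n) ∧ FactOk cost q.1 q.2

lemma bnd_sound {n : ℕ} {facts : List (ℕ × ℕ)} {cap s : ℕ}
    {cost : (ℕ → ℕ) → (ℕ → ℕ) → ℕ → ℕ} (hc : ShiftCost cost) (hf : FactsOk n cost facts)
    {A B : ℕ → ℕ} (hseq : StatSeq n A B) (hs : ¬ Hit s A B) :
    ∀ (d : List ℕ) (i acc : ℕ), bnd n facts cap s d i acc = true →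
      ∑ j ∈ Finset.range i, cost A B j ≤ acc → ∑ j ∈ Finset.range n, cost A B j ≤ cap := by
  intro d
  induction d with
  | nil =>
    intro i acc h hacc
    simp only [bnd, Bool.and_eq_true] at h
    have h1 : i = n := Nat.eq_of_beq_eq_true h.1
    have h2 : acc ≤ cap := Nat.le_of_ble_eq_true h.2
    rw [h1] at hacc
    omega
  | cons f t ih =>
    intro i acc h hacc
    simp only [bnd, Bool.and_eq_true] at h
    obtain ⟨hi, h⟩ := h
    have hi' : i < n := by
      rw [Nat.blt_eq] at hi
      exact hi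
    cases hq : facts[f]? with
    | none => rw [hq] at h; exact absurd h (by simp)
    | some q =>
      rw [hq] at h
      simp only [Bool.and_eq_true] at h
      have hmem : q ∈ facts := List.mem_of_getElem? hq
      obtain ⟨hlt, hfq⟩ := hf q hmem
      have hA : Rng A := hseq.rangeA
      have hB : Rng B := hseq.rangeB
      have hnh : ¬ Hit q.1 (sh A i) (sh B i) := by
        intro hh
        exact hs (Hit.mono h.1 (hit_rotc hlt hi' hA hB hseq.perA hseq.perB hh))
      have hle := hfq (sh A i) (sh B i) (fun j => hA _) (fun j => hB _) hnh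
      rw [hc A B i 0, Nat.zero_add] at hle
      refine ih (i + 1) (acc + q.2) h.2 ?_
      rw [Finset.sum_range_succ]
      omega

lemma sound_parC {n T : ℕ} {facts : List (ℕ × ℕ)} {cap : ℕ} {cs : List HubCert}
    {cost : (ℕ → ℕ) → (ℕ → ℕ) → ℕ → ℕ} (hc : ShiftCost cost) (hf : FactsOk n cost facts) {K : ℕ}
    (hK : ∀ k < K, ∀ A B, GoodC n cs cost cap A B → Hit (tabN (12 * n) T k) A B) :
    Sound (parC n T facts cap) K (GoodC n cs cost cap) (fun _ _ => False) where
  rngA A B h := h.seq.rangeA
  rngB A B h := h.seq.rangeB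
  nx A B h i hi := by
    simp only [parC] at hi ⊢
    rw [per_mod h.seq.perA] at hi
    rw [per_mod h.seq.perB]
    exact h.seq.four i hi
  rot k r hk hr A B h := by
    simp only [parC] at hr ⊢
    have hr' : r < n := by
      rw [Nat.blt_eq] at hr
      exact hr
    refine hit_rotc ?_ hr' h.seq.rangeA h.seq.rangeB h.seq.perA h.seq.perB
      (hK k hk _ _ (h.sh hc r))
    exact Nat.mod_lt _ (by positivity)
  xb d s hd A B h := by
    left
    by_contra hs
    have := bnd_sound hc hf h.seq hs d 0 0 hd (by simp)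
    exact absurd h.big (by omega)

/-- check of a list of trees, the first one for the mask number `k` -/
def chkAll (p : Par) : List Tr → ℕ → Bool
  | [], _ => true
  | t :: ts, k => chk p k t (p.tab k) && chkAll p ts (k + 1)

/-- check of the masks of the certificates, the first one having number `k` -/
def chkBase (D : ℕ) (tab : ℕ → ℕ) : List HubCert → ℕ → Bool
  | [], _ => true
  | c :: t, k => (Nat.beq c.D 0 || Nat.beq c.D D) && Nat.beq (tab k) (cl c) &&
      chkBase D tab t (k + 1)

lemma chkBase_sound {D : ℕ} {tab : ℕ → ℕ} {Good : (ℕ → ℕ) → (ℕ → ℕ) → Prop}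
    (hA : ∀ A B, Good A B → Rng A) (hB : ∀ A B, Good A B → Rng B) :
    ∀ (bcs : List HubCert) (k : ℕ),
    (∀ c ∈ bcs, (c.D = 0 ∨ c.D = D) → ∀ A B, Good A B → ¬ c.Holds A B 0) →
    chkBase D tab bcs k = true → (∀ i < k, ∀ A B, Good A B → Hit (tab i) A B) →
    ∀ i < k + bcs.length, ∀ A B, Good A B → Hit (tab i) A B := by
  intro bcs
  induction bcs with
  | nil => intro k _ _ h i hi; exact h i (by simpa using hi)
  | cons c t ih =>
    intro k hcs h hk i hi
    simp only [chkBase, Bool.and_eq_true, Bool.or_eq_true] at h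
    have hD : c.D = 0 ∨ c.D = D :=
      h.1.1.imp Nat.eq_of_beq_eq_true Nat.eq_of_beq_eq_true
    have ht : tab k = cl c := Nat.eq_of_beq_eq_true h.1.2
    refine ih (k + 1) (fun c' hc' => hcs c' (List.mem_cons_of_mem _ hc')) h.2 ?_ i
      (by simp only [List.length_cons] at hi; omega)
    intro i hi A B hg
    rcases Nat.lt_succ_iff_lt_or_eq.1 hi with h1 | h1
    · exact hk i h1 A B hg
    · subst h1
      rw [ht]
      exact hit_cl (hA A B hg) (hB A B hg) (hcs c (List.mem_cons_self) hD A B hg)

lemma chkAll_sound {p : Par} {Good : (ℕ → ℕ) → (ℕ → ℕ) → Prop}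
    (hS : ∀ K, (∀ k < K, ∀ A B, Good A B → Hit (p.tab k) A B) → Sound p K Good (fun _ _ => False)) :
    ∀ (ts : List Tr) (k : ℕ), chkAll p ts k = true →
      (∀ i < k, ∀ A B, Good A B → Hit (p.tab i) A B) →
      ∀ i < k + ts.length, ∀ A B, Good A B → Hit (p.tab i) A B := by
  intro ts
  induction ts with
  | nil => intro k _ h i hi; exact h i (by simpa using hi)
  | cons t ts ih =>
    intro k h hk i hi
    simp only [chkAll, Bool.and_eq_true] at h
    refine ih (k + 1) h.2 ?_ i (by simp only [List.length_cons] at hi; omega)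
    intro i hi A B hg
    rcases Nat.lt_succ_iff_lt_or_eq.1 hi with h1 | h1
    · exact hk i h1 A B hg
    · subst h1
      exact (chk_sound (hS i hk) t _ h.1 A B hg).resolve_right (fun h => h)

/-- the whole cyclic check: mask 0 is `cl44 0`, then the masks of `bcs`, then the lemmas -/
theorem cyc_sound {n T : ℕ} {facts : List (ℕ × ℕ)} {cap : ℕ} {cs bcs : List HubCert}
    {cost : (ℕ → ℕ) → (ℕ → ℕ) → ℕ → ℕ} {ts : List Tr} {root : Tr} (hc : ShiftCost cost)
    (hf : FactsOk n cost facts) (hsub : ∀ c ∈ bcs, c ∈ cs)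
    (h0 : Nat.beq (tabN (12 * n) T 0) (cl44 0) = true)
    (hb : chkBase n (tabN (12 * n) T) bcs 1 = true)
    (hl : chkAll (parC n T facts cap) ts (1 + bcs.length) = true)
    (hr : chk (parC n T facts cap) (1 + bcs.length + ts.length) root 0 = true) :
    ∀ A B, ¬ GoodC n cs cost cap A B := by
  intro A B hg
  have hbase := chkBase_sound (D := n) (tab := tabN (12 * n) T) (Good := GoodC n cs cost cap)
    (fun A B h => h.seq.rangeA) (fun A B h => h.seq.rangeB) bcs 1
    (fun c hcb hD A B hg => hg.avoid c (hsub c hcb) hD 0) hb (by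
      intro i hi A B hg
      have : i = 0 := by omega
      subst this
      rw [Nat.eq_of_beq_eq_true h0]
      exact hit_cl44 hg.seq.rangeA (hg.seq.no44 0))
  have hall := chkAll_sound (p := parC n T facts cap) (Good := GoodC n cs cost cap)
    (fun K hK => sound_parC hc hf hK) ts (1 + bcs.length) hl hbase
  exact not_hit_zero ((chk_sound (sound_parC hc hf hall) root 0 hr A B hg).resolve_right
    (fun h => h))

/-! ## linear case -/

/-- sequences avoiding the certificates without hub -/
structure GoodL (D : ℕ) (cs : List HubCert) (A B : ℕ → ℕ) : Prop where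
  seq : StatSeq D A B
  avoid : ∀ c ∈ cs, c.D = 0 → ∀ s, ¬ c.Holds A B s

lemma GoodL.sh {D : ℕ} {cs : List HubCert} {A B : ℕ → ℕ} (h : GoodL D cs A B) (r : ℕ) :
    GoodL D cs (sh A r) (sh B r) where
  seq := statSeq_sh h.seq r
  avoid c hcs hD s := avoid_sh (h.avoid c hcs hD) r s

/-- leaves of the linear check: go to state `q`, cost by the fact `f` -/
def xbL (states facts : List (ℕ × ℕ)) (P : ℕ) (d : List ℕ) (s : ℕ) : Bool :=
  match d with
  | [q, f] => (match states[q]? with
      | some z => (match facts[f]? with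
          | some y => subB (z.1 <<< 12) s && subB (y.1 <<< 24) s && Nat.ble (y.2 + z.2) P
          | none => false)
      | none => false)
  | _ => false

def parL (T : ℕ) (states facts : List (ℕ × ℕ)) (P : ℕ) : Par where
  rot x r := x <<< (12 * r)
  rok _ := true
  nx i := i + 1
  tab := tabN 60 T
  xb := xbL states facts P

def StepL (cost : (ℕ → ℕ) → (ℕ → ℕ) → ℕ → ℕ) (states : List (ℕ × ℕ)) (P : ℕ)
    (A B : ℕ → ℕ) : Prop :=
  ∃ z ∈ states, ¬ Hit z.1 (sh A 1) (sh B 1) ∧ cost A B 2 + z.2 ≤ P

lemma sound_parL {D T : ℕ} {states facts : List (ℕ × ℕ)} {P : ℕ} {cs : List HubCert}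
    {cost : (ℕ → ℕ) → (ℕ → ℕ) → ℕ → ℕ} (hc : ShiftCost cost)
    (hf : ∀ q ∈ facts, FactOk cost q.1 q.2) {K : ℕ}
    (hK : ∀ k < K, ∀ A B, GoodL D cs A B → Hit (tabN 60 T k) A B) :
    Sound (parL T states facts P) K (GoodL D cs) (StepL cost states P) where
  rngA A B h := h.seq.rangeA
  rngB A B h := h.seq.rangeB
  nx A B h i hi := h.seq.four i hi
  rot k r hk _ A B h := hit_shl (hK k hk _ _ (h.sh r))
  xb d s hd A B h := by
    by_cases hs : Hit s A B
    · exact Or.inl hs
    right
    simp only [parL, xbL] at hd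
    split at hd
    · rename_i q f
      split at hd
      · rename_i z hz
        split at hd
        · rename_i y hy
          simp only [Bool.and_eq_true] at hd
          refine ⟨z, List.mem_of_getElem? hz, ?_, ?_⟩
          · intro hh
            have h1 := hit_shl (r := 1) hh
            rw [Nat.mul_one] at h1
            exact hs (Hit.mono hd.1.1 h1)
          · have hny : ¬ Hit y.1 (H44.sh A 2) (H44.sh B 2) := by
              intro hh
              have h1 := hit_shl (r := 2) hh
              exact hs (Hit.mono hd.1.2 h1)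
            have hle := hf y (List.mem_of_getElem? hy) (H44.sh A 2) (H44.sh B 2)
              (fun j => h.seq.rangeA _) (fun j => h.seq.rangeB _) hny
            rw [hc A B 2 0, Nat.zero_add] at hle
            have := Nat.le_of_ble_eq_true hd.2
            omega
        · exact absurd hd (by simp)
      · exact absurd hd (by simp)
    · exact absurd hd (by simp)

/-- check of the masks of the certificates in the linear case -/
def chkBaseL (tab : ℕ → ℕ) : List HubCert → ℕ → Bool
  | [], _ => true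
  | c :: t, k => Nat.beq c.D 0 && (Nat.beq (tab k) (cl c) || Nat.beq (tab k <<< 12) (cl c)) &&
      chkBaseL tab t (k + 1)

lemma hit_back {D x : ℕ} {A B : ℕ → ℕ} (hD : 0 < D) (h : StatSeq D A B)
    (hh : Hit (x <<< 12) (sh A (D - 1)) (sh B (D - 1))) : Hit x A B := by
  have key : ∀ (C : ℕ → ℕ) (o : ℕ), Rng C → (∀ i, C (i + D) = C i) → o = 0 ∨ o = 6 → ∀ j,
      (x <<< 12).testBit (12 * j + o + (C (j + (D - 1)) - 4)) = true →
      ∃ j', x.testBit (12 * j' + o + (C j' - 4)) = true := by
    intro C o hC pC ho j hj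
    rw [Nat.testBit_shiftLeft] at hj
    simp only [Bool.and_eq_true, decide_eq_true_eq] at hj
    have h2 := hC (j + (D - 1))
    have hj1 : 1 ≤ j := by omega
    refine ⟨j - 1, ?_⟩
    have e0 : C (j + (D - 1)) = C (j - 1) := by
      rw [← pC (j - 1)]
      congr 1
      omega
    rw [e0] at hj h2
    have e : 12 * j + o + (C (j - 1) - 4) - 12 = 12 * (j - 1) + o + (C (j - 1) - 4) := by omega
    rw [e] at hj
    exact hj.2
  obtain ⟨j, hj | hj⟩ := hh
  · obtain ⟨j', hj'⟩ := key A 0 h.rangeA h.perA (Or.inl rfl) j (by simpa [sh] using hj)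
    exact ⟨j', Or.inl (by simpa using hj')⟩
  · obtain ⟨j', hj'⟩ := key B 6 h.rangeB h.perB (Or.inr rfl) j (by simpa [sh] using hj)
    exact ⟨j', Or.inr hj'⟩

lemma chkBaseL_sound {D : ℕ} {tab : ℕ → ℕ} {cs : List HubCert} (hD : 0 < D) :
    ∀ (bcs : List HubCert) (k : ℕ), (∀ c ∈ bcs, c ∈ cs) →
    chkBaseL tab bcs k = true → (∀ i < k, ∀ A B, GoodL D cs A B → Hit (tab i) A B) →
    ∀ i < k + bcs.length, ∀ A B, GoodL D cs A B → Hit (tab i) A B := by
  intro bcs
  induction bcs with
  | nil => intro k _ _ h i hi; exact h i (by simpa using hi)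
  | cons c t ih =>
    intro k hcs h hk i hi
    simp only [chkBaseL, Bool.and_eq_true, Bool.or_eq_true] at h
    have h0 : c.D = 0 := Nat.eq_of_beq_eq_true h.1.1
    refine ih (k + 1) (fun c' hc' => hcs c' (List.mem_cons_of_mem _ hc')) h.2 ?_ i
      (by simp only [List.length_cons] at hi; omega)
    intro i hi A B hg
    rcases Nat.lt_succ_iff_lt_or_eq.1 hi with h1 | h1
    · exact hk i h1 A B hg
    · subst h1
      have hav := hg.avoid c (hcs c (List.mem_cons_self)) h0
      rcases h.1.2 with h2 | h2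
      · rw [Nat.eq_of_beq_eq_true h2]
        exact hit_cl hg.seq.rangeA hg.seq.rangeB (hav 0)
      · apply hit_back hD hg.seq
        rw [Nat.eq_of_beq_eq_true h2]
        exact hit_cl (fun j => hg.seq.rangeA _) (fun j => hg.seq.rangeB _) (avoid_sh hav _ 0)

/-- check of the trees of all states -/
def chkSt (T : ℕ) (states facts : List (ℕ × ℕ)) (K g : ℕ) : List (ℕ × ℕ) → List Tr → Bool
  | [], [] => true
  | z :: zs, t :: ts => chk (parL T states facts (z.2 + g)) K t z.1 &&
      chkSt T states facts K g zs ts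
  | _, _ => false

lemma chkSt_sound {D T : ℕ} {states facts : List (ℕ × ℕ)} {cs : List HubCert} {g : ℕ}
    {cost : (ℕ → ℕ) → (ℕ → ℕ) → ℕ → ℕ} (hc : ShiftCost cost)
    (hf : ∀ q ∈ facts, FactOk cost q.1 q.2) {K : ℕ}
    (hK : ∀ k < K, ∀ A B, GoodL D cs A B → Hit (tabN 60 T k) A B) :
    ∀ (zs : List (ℕ × ℕ)) (ts : List Tr), chkSt T states facts K g zs ts = true →
      ∀ z ∈ zs, ∀ A B, GoodL D cs A B → ¬ Hit z.1 A B → StepL cost states (z.2 + g) A B := by
  intro zs
  induction zs with
  | nil => intro ts _ z hz; simp at hz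
  | cons y zs ih =>
    intro ts h z hz A B hg hn
    cases ts with
    | nil => simp [chkSt] at h
    | cons t ts =>
      simp only [chkSt, Bool.and_eq_true] at h
      rcases List.mem_cons.1 hz with h1 | h1
      · subst h1
        exact (chk_sound (sound_parL hc hf hK) t _ h.1 A B hg).resolve_left hn
      · exact ih ts h.2 z h1 A B hg hn

/-- the whole linear check: mask 0 is `cl44 0`, then the masks of `bcs`; the first state is
the empty mask; the mean cost is at most `g` -/
theorem lin_sound {D T : ℕ} {states facts : List (ℕ × ℕ)} {cs bcs : List HubCert} {g p0 : ℕ}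
    {cost : (ℕ → ℕ) → (ℕ → ℕ) → ℕ → ℕ} {ts : List Tr} (hD : 0 < D) (hc : ShiftCost cost)
    (hf : ∀ q ∈ facts, FactOk cost q.1 q.2) (hsub : ∀ c ∈ bcs, c ∈ cs)
    (h0 : Nat.beq (tabN 60 T 0) (cl44 0) = true)
    (hb : chkBaseL (tabN 60 T) bcs 1 = true)
    (hst : chkSt T states facts (1 + bcs.length) g states ts = true)
    (hfirst : (0, p0) ∈ states) :
    ∀ A B, GoodL D cs A B → ∑ i ∈ Finset.range D, cost A B i ≤ g * D := by
  intro A B hg
  have hbase := chkBaseL_sound (D := D) (tab := tabN 60 T) (cs := cs) hD bcs 1 hsub hb (by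
      intro i hi A B hg
      have : i = 0 := by omega
      subst this
      rw [Nat.eq_of_beq_eq_true h0]
      exact hit_cl44 hg.seq.rangeA (hg.seq.no44 0))
  have hstep := chkSt_sound (D := D) (T := T) (states := states) (facts := facts) (cs := cs)
    (g := g) hc hf hbase states ts hst
  have main : ∀ i, ∃ z ∈ states, ¬ Hit z.1 (sh A i) (sh B i) ∧
      ∑ j ∈ Finset.range i, cost A B (j + 2) + z.2 ≤ g * i + p0 := by
    intro i
    induction i with
    | zero => exact ⟨(0, p0), hfirst, not_hit_zero, by simp⟩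
    | succ i ih =>
      obtain ⟨z, hz, hn, hle⟩ := ih
      obtain ⟨y, hy, hyn, hyle⟩ := hstep z hz _ _ (hg.sh i) hn
      refine ⟨y, hy, ?_, ?_⟩
      · have e1 : sh (sh A i) 1 = sh A (i + 1) := by
          funext j
          simp only [sh]
          congr 1
          ring
        have e2 : sh (sh B i) 1 = sh B (i + 1) := by
          funext j
          simp only [sh]
          congr 1
          ring
        rw [e1, e2] at hyn
        exact hyn
      · rw [hc A B i 2, Nat.add_comm 2 i] at hyle
        rw [Finset.sum_range_succ, Nat.mul_succ]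
        omega
  have hper : ∀ i, cost A B (i + D) = cost A B i := fun i => cost_per hc hg.seq i
  obtain ⟨z, _, _, hz⟩ := main ((p0 + 1) * D)
  have h1 : ∑ j ∈ Finset.range ((p0 + 1) * D), cost A B (j + 2) =
      (p0 + 1) * ∑ j ∈ Finset.range D, cost A B (j + 2) :=
    sum_mul (f := fun j => cost A B (j + 2)) (by
      intro i
      show cost A B (i + D + 2) = cost A B (i + 2)
      rw [← hper (i + 2)]
      congr 1
      ring) (p0 + 1)
  rw [h1, sum_shift (f := fun j => cost A B j) hper 2] at hz
  by_contra hcon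
  have h2 : g * D + 1 ≤ ∑ j ∈ Finset.range D, cost A B j := by omega
  have h3 := Nat.mul_le_mul_left (p0 + 1) h2
  have h4 : (p0 + 1) * (g * D + 1) = g * ((p0 + 1) * D) + (p0 + 1) := by ring
  omega

end StrongArb.H44
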