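import Pool.Agent.Lib.MP_39c2b7_co.Interfaces2

/-!
# Strong arboricity: the weights
-/

namespace StrongArb.H44

open StrongArb

/-- amounts sent by 4-vertices, eight bits each -/
def tab4 : ℕ := 0x60808080808080c0802080c0802060c080808080808080c0208080c0208060c080808090808080c0808080c06060c0e0808090c0c0c0c100c0c0c100c0c0e000004080a040808080802040c0802060c0400080a080608080208080c0208060c0808040a080808090408080c0606080c0a0a0a080808090c0c0c0c100c0c0c000006040600060606040606060602060a0600060606000406060406080206060c0406040606040406060606080606080c06060608060606080608080c0a0c0c0000000000000000000000000000000000000000000000000000000000000000000000000000000000000000000000000000000000000000000000000000000000

/-- amounts sent by 5-vertices, eight bits each -/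
def tab5 : ℕ := 0x30000000600080606000006060204020606080608060806000608060006060606000606000006060800060600000606060000060000000600000006080002060000010606000806000001060002040400000202060808060000080600000606000000060600080600080806000204060202020406000106000202060008020c0001000608020806060002060002040508080806080808060608080600010606000102030808080606080806000204060404040006060604060404060202080c00060600060206040606030a0604000606060604060606040606060a0606040a0606060a0606060a0606060a0606060a020405060606060a0606060a060c0c0c0002010400000000000000040002040600040104040204040001000400040402000401040000000404000004000004060004000400000002000000020400020002000104040004040400000404020406000001040203020200040104000404040000000401040404000404040002040602020204040401040002020400040206010100040101010401000004000204060004010404020004000402040001040500000004000102030004040400020406040404000404040404040404020204080404040004040404040404040404000200040404040204040404030402040406040404040404040404040404020404060606060202040506060606060006080c0003020203030302000000000002030403030302000303020003030200030304000303020002030203000202000003020000030200000004000000020300020003000102030302020300000200020304030301020300030202020202000303040000010203020302000303020002030402020202030303040002020400030204020100030301010303010003030203040302010303030003030301030003030400000003030201030203030300020304030303010303030403030304020204060202030002020304020203040202010202020304020203040202030404040406000203040202030402020304020404060404040204040406020404060004060c00000000000000000000000000000000000000000000000000000000000000000000000000000000000000000000000000000000000000000000000000000000000000000000000000000000000000000000000000000000000000000000000000000000000000000000000000000000000000000000000000000000000000000000000000000000000000000000000000000000000000000000000000000000000000000000000000000000000000000000000000000000000000000000000000000000000000000000000000000000000000000000000000000000000000000000000000000000000000000000000000000000000000000000000000000000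

/-- The weights in units of 1/12: entry of the table at the classes of the receiver and of the
other neighbours in cyclic order. -/
def W : WTable where
  w4 r x y z := if r ≤ 6 then 0 else
    (tab4 >>> (8 * ((((r - 6) * 4 + (x - 6)) * 4 + (y - 6)) * 4 + (z - 6)))) % 256
  w5 r x y z u := if r ≤ 6 then 0 else
    (tab5 >>> (8 * (((((r - 6) * 4 + (x - 6)) * 4 + (y - 6)) * 4 + (z - 6)) * 4 + (u - 6)))) % 256

theorem valid : W.Valid 12 where
  pos := by norm_num
  zero4 _ _ _ := rfl
  zero5 _ _ _ _ := rfl
  refl4 := by decide +kernel
  refl5 := by decide +kernel
  sum4 := by decide +kernel
  sum5 := by decide +kernel
  cap4 := by decide +kernel
  cap5 := by decide +kernel

end StrongArb.H44
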