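import Pool.Agent.Lib.MP_39c2b7_co.H44.Certs
import Pool.Agent.Lib.MP_39c2b7_co.H44.Table

/-! Hubs of degree at least nine. -/

namespace StrongArb.H44

open StrongArb

/-- masks -/
def T9 : ℕ := 0x3defdec003d03b03703eec003e03b03703eec000003e03703eec0000000000f7bf4000000003defdf4000000000003ef4000000000003df8000000000003ef8000003d03703eef700003d03703eefb00003703eef703d00003b03eef703d00003eef703b03d00003d03b03b03d00003e03b03b03d00000003d03b03d00000003e03b03d000000000fbb03d00000003ddfd03d00000003defd03d00000000003e03d00000003d03ddfd00000003d03defd000000000efdefd000000000f7defd00000000003df7d000000000000fbd00000003eef703e00000003bfb703e00003eef703b03e00003d03b03b03e00003e03b03b03e00000003d03b03e00000003e03b03e000000000f7b03e000000000fbb03e00000000003d03e00000000003e03e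

/-- facts -/
def facts9 : List (ℕ × ℕ) := [(0, 16), (251658240, 12), (4551, 8), (1839111, 8), (117440527, 8), (6291456, 14), (119275520, 12), (4544, 10), (1839104, 10), (4096, 12), (12288, 0), (7, 14), (251658247, 8), (939528647, 6), (941363207, 6), (117440519, 12), (119275527, 8), (8131072, 8), (3937272, 6), (1842695, 6), (117444615, 8), (119279672, 6), (943461368, 4), (117445112, 6), (117445056, 8), (947655168, 6), (119279616, 8), (6034951, 6), (15, 12), (1835015, 12)]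

/-- states -/
def states9 : List (ℕ × ℕ) := [(0, 12), (206158430208, 8), (138445586432, 4), (67108864, 10), (3359704809472, 2), (1006632960, 6), (3986736283648, 0), (68786585600, 8), (245760, 8), (138259193856, 6), (973324288, 4), (229436, 8)]

/-- proof trees of the states -/
def ts9 : List Tr := [
 .a 3 3 (.a 4 1 (.x [6, 0]) (.a 4 4 (.x [6, 0]) (.a 4 16 (.x [2, 1]) (.a 4 32 (.x [2, 1]) (.a 2 16 (.a 4 2 (.a 3 1 (.l 1 3) (.b 2 1 (.l 31 2) (.b 2 8 (.x [7, 2]) (.b 2 16 (.x [7, 2]) (.b 2 32 (.x [7, 2]) (.b 3 1 (.l 31 3) (.b 3 2 (.l 12 3) (.b 3 4 (.b 2 2 (.l 33 2) (.l 38 2)) (.x [7, 3]))))))))) (.x [1, 4])) (.a 2 32 (.a 4 2 (.a 3 1 (.l 1 3) (.b 2 1 (.l 31 2) (.b 2 8 (.x [7, 2]) (.b 2 16 (.x [7, 2]) (.b 2 32 (.x [7, 2]) (.b 3 1 (.l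 31 3) (.b 3 2 (.l 12 3) (.b 3 4 (.b 2 2 (.l 33 2) (.l 38 2)) (.x [7, 3]))))))))) (.x [1, 4])) (.a 3 1 (.a 4 2 (.l 1 3) (.g 2 7 (.x [4, 5]) (.x [2, 6]))) (.b 2 1 (.l 31 2) (.b 2 8 (.x [5, 7]) (.b 2 16 (.x [5, 7]) (.b 2 32 (.x [5, 7]) (.b 3 1 (.l 11 3) (.b 3 8 (.x [5, 8]) (.b 3 16 (.x [5, 8]) (.b 3 32 (.x [5, 8]) (.a 4 2 (.b 3 2 (.l 12 3) (.b 2 2 (.l 33 2) (.l 38 2))) (.x [2, 9]))))))))))))))))) (.x [0, 10]),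
 .x [0, 10],
 .a 3 1 (.a 2 1 (.l 0 2) (.l 17 2)) (.x [8, 10]),
 .a 3 3 (.a 4 1 (.a 3 1 (.l 0 3) (.l 17 3)) (.a 4 4 (.a 2 3 (.a 3 1 (.a 2 1 (.l 0 2) (.l 17 2)) (.x [6, 9])) (.x [6, 11])) (.a 4 16 (.a 2 3 (.a 3 1 (.a 2 1 (.l 0 2) (.l 17 2)) (.a 2 1 (.l 1 2) (.b 2 1 (.l 11 2) (.b 2 2 (.l 12 2) (.b 2 4 (.b 3 1 (.l 11 3) (.b 3 2 (.l 13 2) (.b 3 4 (.l 14 2) (.x [2, 8])))) (.x [2, 7])))))) (.x [2, 12])) (.a 4 32 (.a 2 3 (.a 3 1 (.a 2 1 (.l 0 2) (.l 17 2)) (.a 2 1 (.l 1 2) (.b 2 1 (.l 11 2) (.b 2 2 (.l 12 2) (.b 2 4 (.b 3 1 (.l 11 3) (.b 3 2 (.l 13 2) (.b 3 4 (.l 14 2) (.x [2, 8])))) (.x [2, 7])))))) (.x [2, 12])) (.a 2 16 (.a 4 2 (.a 3 1 (.l 1 3) (.b 2 1 (.l 31 2) (.b 2 8 (.x [7, 13]) (.b 2 16 (.x [7, 13]) (.b 2 32 (.x [7, 13]) (.b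 3 1 (.l 11 3) (.b 3 2 (.l 12 3) (.b 3 4 (.b 2 2 (.l 33 2) (.l 38 2)) (.x [7, 14]))))))))) (.x [2, 4])) (.a 2 32 (.a 4 2 (.a 3 1 (.l 1 3) (.b 2 1 (.l 31 2) (.b 2 8 (.x [7, 13]) (.b 2 16 (.x [7, 13]) (.b 2 32 (.x [7, 13]) (.b 3 1 (.l 11 3) (.b 3 2 (.l 12 3) (.b 3 4 (.b 2 2 (.l 33 2) (.l 38 2)) (.x [7, 14]))))))))) (.x [2, 4])) (.a 3 1 (.a 4 2 (.l 1 3) (.a 2 3 (.a 2 1 (.l 0 2) (.l 17 2)) (.g 2 7 (.x [4, 15]) (.x [2, 16])))) (.a 2 1 (.l 1 2) (.b 2 1 (.l 31 2) (.b 3 1 (.l 11 3) (.b 2 8 (.a 2 2 (.a 4 2 (.l 16 2) (.b 2 4 (.b 3 1 (.l 11 3) (.b 3 2 (.l 13 2) (.b 3 4 (.l 14 2) (.x [2, 8])))) (.x [2, 7]))) (.x [5, 2])) (.b 3 32 (.x [5, 17]) (.b 2 16 (.a 2 2 (.b 3 16 (.x [7, 18]) (.a 4 2 (.b 3 2 (.l 12 3) (.b 3 4 (.l 18 2) (.l 19 2))) (.b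 2 4 (.b 3 1 (.l 11 3) (.b 3 2 (.l 13 2) (.b 3 4 (.l 14 2) (.x [2, 8])))) (.x [2, 7])))) (.x [5, 2])) (.b 2 32 (.a 2 2 (.b 3 16 (.x [7, 18]) (.a 4 2 (.b 3 2 (.l 12 3) (.b 3 4 (.l 18 2) (.l 19 2))) (.b 2 4 (.b 3 1 (.l 11 3) (.b 3 2 (.l 13 2) (.b 3 4 (.l 14 2) (.x [2, 8])))) (.x [2, 7])))) (.x [5, 2])) (.b 3 16 (.a 2 2 (.b 2 2 (.l 12 2) (.a 4 2 (.l 15 2) (.b 3 4 (.l 14 2) (.x [2, 8])))) (.x [7, 19])) (.a 2 2 (.b 2 2 (.l 12 2) (.a 4 2 (.b 3 2 (.l 12 3) (.b 3 4 (.l 18 2) (.l 19 2))) (.b 2 4 (.b 3 1 (.l 11 3) (.b 3 2 (.l 13 2) (.b 3 4 (.l 14 2) (.x [2, 8])))) (.x [2, 7])))) (.a 4 2 (.b 3 2 (.l 12 3) (.b 3 4 (.b 2 2 (.l 33 2) (.l 38 2)) (.x [7, 14]))) (.x [2, 20])))))))))))))))))) (.x [0, 10]),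
 .a 3 1 (.l 0 2) (.a 3 2 (.l 1 2) (.a 1 1 (.l 0 1) (.a 1 2 (.l 17 1) (.g 1 1 (.l 30 1) (.g 1 2 (.l 32 1) (.g 1 4 (.a 3 4 (.x [10, 10]) (.a 4 2 (.a 1 4 (.l 28 1) (.l 29 1)) (.x [9, 10]))) (.e 5))))))),
 .a 3 3 (.a 3 1 (.a 2 1 (.l 0 2) (.l 17 2)) (.a 2 1 (.l 1 2) (.b 2 1 (.l 11 2) (.b 2 2 (.l 12 2) (.a 4 1 (.l 17 3) (.b 3 1 (.l 11 3) (.a 4 4 (.b 2 4 (.b 3 2 (.l 13 2) (.b 3 4 (.l 14 2) (.x [6, 8]))) (.x [6, 7])) (.b 2 4 (.a 4 2 (.l 15 2) (.b 3 2 (.l 13 2) (.b 3 4 (.l 14 2) (.x [2, 21])))) (.a 4 2 (.b 2 8 (.l 16 2) (.b 3 2 (.l 12 3) (.b 3 4 (.l 18 2) (.b 3 8 (.l 19 2) (.x [5, 22]))))) (.x [2, 23])))))))))) (.x [8, 10]),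
 .a 3 1 (.a 2 1 (.l 0 2) (.l 17 2)) (.x [10, 10]),
 .a 3 2 (.a 2 1 (.l 1 2) (.b 2 1 (.l 31 2) (.a 4 1 (.l 17 3) (.b 3 1 (.l 11 3) (.a 4 4 (.x [6, 9]) (.b 2 8 (.a 4 2 (.a 2 2 (.l 16 2) (.x [5, 13])) (.x [2, 24])) (.b 3 32 (.a 4 2 (.x [5, 25]) (.x [2, 26])) (.b 2 16 (.a 4 2 (.a 2 2 (.b 3 2 (.l 12 3) (.b 3 4 (.l 18 2) (.b 3 8 (.l 19 2) (.x [8, 22])))) (.x [5, 13])) (.x [2, 24])) (.b 2 32 (.a 4 2 (.a 2 2 (.b 3 2 (.l 12 3) (.b 3 4 (.l 18 2) (.b 3 8 (.l 19 2) (.x [8, 22])))) (.x [5, 13])) (.x [2, 24])) (.b 3 8 (.a 2 2 (.a 4 2 (.l 19 2) (.x [2, 26])) (.x [5, 27])) (.b 3 16 (.a 2 2 (.b 2 2 (.l 12 2) (.a 4 2 (.l 15 2) (.x [2, 26]))) (.x [5, 19])) (.a 4 2 (.b 3 2 (.l 12 3) (.b 2 2 (.l 33 2) (.l 38 2))) (.a 2 2 (.b 2 2 (.l 12 2) (.b 3 2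 (.l 13 2) (.l 14 2))) (.x [2, 20])))))))))))))) (.x [0, 10]),
 .a 3 3 (.a 4 1 (.a 3 1 (.l 0 3) (.l 17 3)) (.a 4 4 (.a 2 16 (.x [6, 28]) (.a 2 32 (.x [6, 28]) (.a 3 1 (.a 2 1 (.l 0 2) (.a 2 2 (.l 17 2) (.g 2 1 (.l 30 2) (.g 2 2 (.l 32 2) (.a 2 4 (.a 1 1 (.l 4 1) (.l 21 1)) (.g 2 4 (.a 1 1 (.l 10 1) (.l 26 1)) (.x [6, 29]))))))) (.x [6, 9])))) (.a 4 16 (.a 2 8 (.x [2, 12]) (.a 2 16 (.x [2, 12]) (.a 2 32 (.x [2, 12]) (.a 1 1 (.a 2 1 (.l 0 1) (.a 2 2 (.l 1 1) (.a 3 1 (.l 4 1) (.l 5 1)))) (.a 2 1 (.l 17 1) (.a 2 2 (.a 3 1 (.l 17 2) (.b 2 1 (.l 11 2) (.b 2 2 (.l 12 2) (.b 2 4 (.l 18 1) (.x [2, 24]))))) (.a 3 1 (.l 21 1) (.l 22 1)))))))) (.a 4 32 (.a 2 8 (.x [2, 12]) (.a 2 16 (.x [2, 12]) (.a 2 32 (.x [2, 12]) (.a 1 1 (.a 2 1 (.l 0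 1) (.a 2 2 (.l 1 1) (.a 3 1 (.l 4 1) (.l 5 1)))) (.a 2 1 (.l 17 1) (.a 2 2 (.a 3 1 (.l 17 2) (.b 2 1 (.l 11 2) (.b 2 2 (.l 12 2) (.b 2 4 (.l 18 1) (.x [2, 24]))))) (.a 3 1 (.l 21 1) (.l 22 1)))))))) (.a 2 16 (.a 4 2 (.a 3 1 (.l 1 3) (.b 2 1 (.l 31 2) (.b 2 8 (.x [5, 13]) (.b 2 16 (.x [5, 13]) (.b 2 32 (.x [5, 13]) (.b 3 1 (.l 11 3) (.b 3 2 (.l 12 3) (.b 3 4 (.b 2 2 (.l 33 2) (.l 38 2)) (.x [5, 14]))))))))) (.x [2, 4])) (.a 2 32 (.a 4 2 (.a 3 1 (.l 1 3) (.b 2 1 (.l 31 2) (.b 2 8 (.x [5, 13]) (.b 2 16 (.x [5, 13]) (.b 2 32 (.x [5, 13]) (.b 3 1 (.l 11 3) (.b 3 2 (.l 12 3) (.b 3 4 (.b 2 2 (.l 33 2) (.l 38 2)) (.x [5, 14]))))))))) (.x [2, 4])) (.a 3 1 (.a 4 2 (.l 1 3) (.a 2 8 (.g 2 7 (.g 2 1 (.l 30 2) (.g 2 2 (.l 32 2) (.a 1 1 (.l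 10 1) (.l 27 1)))) (.x [2, 16])) (.a 1 1 (.a 2 1 (.l 0 1) (.a 2 2 (.l 1 1) (.a 3 1 (.l 4 1) (.l 5 1)))) (.a 2 1 (.l 17 1) (.a 2 2 (.a 3 1 (.l 17 2) (.b 2 1 (.l 11 2) (.b 2 2 (.l 12 2) (.b 2 4 (.l 18 1) (.x [2, 24]))))) (.a 3 1 (.l 21 1) (.l 22 1))))))) (.a 2 1 (.l 1 2) (.b 2 1 (.l 31 2) (.b 3 1 (.l 11 3) (.b 2 8 (.a 4 2 (.a 2 2 (.l 16 2) (.a 2 4 (.a 1 1 (.l 5 1) (.l 22 1)) (.b 2 8 (.x [5, 13]) (.b 2 16 (.x [5, 13]) (.b 2 32 (.x [5, 13]) (.b 3 1 (.l 11 3) (.b 3 2 (.l 12 3) (.b 3 4 (.b 2 2 (.l 33 2) (.l 38 2)) (.x [5, 14]))))))))) (.x [2, 24])) (.a 2 4 (.a 1 1 (.l 5 1) (.l 22 1)) (.b 2 16 (.a 4 2 (.a 2 2 (.b 3 2 (.l 12 3) (.b 3 4 (.l 18 2) (.b 3 8 (.l 19 2) (.x [8, 22])))) (.b 2 16 (.x [5, 13]) (.b 2 32 (.x [5, 13]) (.b 3 1 (.l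 11 3) (.b 3 2 (.l 12 3) (.b 3 4 (.b 2 2 (.l 33 2) (.l 38 2)) (.x [5, 14]))))))) (.x [2, 24])) (.b 2 32 (.a 4 2 (.a 2 2 (.b 3 2 (.l 12 3) (.b 3 4 (.l 18 2) (.b 3 8 (.l 19 2) (.x [8, 22])))) (.b 2 16 (.x [5, 13]) (.b 2 32 (.x [5, 13]) (.b 3 1 (.l 11 3) (.b 3 2 (.l 12 3) (.b 3 4 (.b 2 2 (.l 33 2) (.l 38 2)) (.x [5, 14]))))))) (.x [2, 24])) (.a 2 2 (.a 1 1 (.l 1 1) (.b 2 2 (.l 12 2) (.l 18 1))) (.a 4 2 (.b 3 2 (.l 12 3) (.b 3 4 (.b 2 2 (.l 33 2) (.l 38 2)) (.x [5, 14]))) (.x [2, 20]))))))))))))))))) (.x [0, 10]),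
 .a 3 1 (.g 0 1 (.l 30 0) (.g 0 2 (.l 32 0) (.g 0 4 (.a 2 1 (.l 0 1) (.a 2 2 (.l 1 1) (.a 2 4 (.l 4 1) (.l 35 0)))) (.e 3)))) (.g 0 1 (.l 30 0) (.g 0 2 (.l 32 0) (.g 0 4 (.a 2 1 (.l 0 1) (.a 2 2 (.l 1 1) (.a 2 4 (.x [11, 10]) (.a 3 4 (.a 4 1 (.l 36 0) (.a 4 2 (.l 37 0) (.x [1, 10]))) (.x [3, 10]))))) (.e 3)))),
 .a 3 3 (.a 3 1 (.a 2 1 (.l 0 2) (.a 1 1 (.l 4 1) (.l 21 1))) (.a 2 1 (.l 1 2) (.a 1 1 (.l 5 1) (.l 22 1)))) (.x [11, 10]),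
 .a 3 3 (.a 4 1 (.a 3 1 (.l 0 3) (.l 17 3)) (.a 4 4 (.a 2 16 (.x [6, 28]) (.a 2 32 (.x [6, 28]) (.a 3 1 (.a 2 1 (.l 0 2) (.a 2 2 (.l 17 2) (.g 2 1 (.l 30 2) (.g 2 2 (.l 32 2) (.a 2 4 (.a 1 1 (.l 4 1) (.a 1 2 (.l 21 1) (.a 0 1 (.l 6 0) (.l 23 0)))) (.g 2 4 (.a 1 1 (.l 10 1) (.a 1 2 (.l 26 1) (.a 0 1 (.l 8 0) (.l 25 0)))) (.x [6, 29]))))))) (.x [6, 9])))) (.a 4 16 (.a 2 8 (.x [2, 12]) (.a 2 16 (.x [2, 12]) (.a 2 32 (.x [2, 12]) (.a 0 1 (.a 1 1 (.l 0 0) (.a 1 2 (.l 1 0) (.a 2 1 (.l 4 0) (.a 2 2 (.l 5 0) (.a 3 1 (.l 6 0) (.l 7 0)))))) (.a 1 1 (.l 17 0) (.a 1 2 (.a 2 1 (.l 17 1) (.a 2 2 (.a 3 1 (.l 17 2) (.b 2 1 (.l 11 2) (.b 2 2 (.l 12 2) (.b 2 4 (.l 18 1) (.x [2, 24]))))) (.a 3 1 (.l 21 1) (.l 22 1)))) (.a 2 1 (.l 21 0) (.a 2 2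 (.l 22 0) (.a 3 1 (.l 23 0) (.l 24 0)))))))))) (.a 4 32 (.a 2 8 (.x [2, 12]) (.a 2 16 (.x [2, 12]) (.a 2 32 (.x [2, 12]) (.a 0 1 (.a 1 1 (.l 0 0) (.a 1 2 (.l 1 0) (.a 2 1 (.l 4 0) (.a 2 2 (.l 5 0) (.a 3 1 (.l 6 0) (.l 7 0)))))) (.a 1 1 (.l 17 0) (.a 1 2 (.a 2 1 (.l 17 1) (.a 2 2 (.a 3 1 (.l 17 2) (.b 2 1 (.l 11 2) (.b 2 2 (.l 12 2) (.b 2 4 (.l 18 1) (.x [2, 24]))))) (.a 3 1 (.l 21 1) (.l 22 1)))) (.a 2 1 (.l 21 0) (.a 2 2 (.l 22 0) (.a 3 1 (.l 23 0) (.l 24 0)))))))))) (.a 2 16 (.a 4 2 (.a 3 1 (.l 1 3) (.b 2 1 (.l 31 2) (.b 2 8 (.x [5, 13]) (.b 2 16 (.x [5, 13]) (.b 2 32 (.x [5, 13]) (.b 3 1 (.l 11 3) (.b 3 2 (.l 12 3) (.b 3 4 (.b 2 2 (.l 33 2) (.l 38 2)) (.x [5, 14]))))))))) (.x [2, 4])) (.a 2 32 (.a 4 2 (.a 3 1 (.l 1 3) (.b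 2 1 (.l 31 2) (.b 2 8 (.x [5, 13]) (.b 2 16 (.x [5, 13]) (.b 2 32 (.x [5, 13]) (.b 3 1 (.l 11 3) (.b 3 2 (.l 12 3) (.b 3 4 (.b 2 2 (.l 33 2) (.l 38 2)) (.x [5, 14]))))))))) (.x [2, 4])) (.a 3 1 (.a 4 2 (.l 1 3) (.a 2 8 (.g 2 7 (.g 2 1 (.l 30 2) (.g 2 2 (.l 32 2) (.a 1 1 (.l 10 1) (.a 1 2 (.l 27 1) (.a 0 1 (.l 8 0) (.l 25 0)))))) (.x [2, 16])) (.a 0 1 (.a 1 1 (.l 0 0) (.a 1 2 (.l 1 0) (.a 2 1 (.l 4 0) (.a 2 2 (.l 5 0) (.a 3 1 (.l 6 0) (.l 7 0)))))) (.a 1 1 (.l 17 0) (.a 1 2 (.a 2 1 (.l 17 1) (.a 2 2 (.a 3 1 (.l 17 2) (.b 2 1 (.l 11 2) (.b 2 2 (.l 12 2) (.b 2 4 (.l 18 1) (.x [2, 24]))))) (.a 3 1 (.l 21 1) (.l 22 1)))) (.a 2 1 (.l 21 0) (.a 2 2 (.l 22 0) (.a 3 1 (.l 23 0) (.l 24 0))))))))) (.a 2 1 (.l 1 2) (.b 2 1 (.l 31 2) (.b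 3 1 (.l 11 3) (.b 2 8 (.a 4 2 (.a 2 2 (.l 16 2) (.a 2 4 (.a 0 1 (.a 1 1 (.l 0 0) (.a 1 2 (.l 1 0) (.a 2 1 (.l 4 0) (.a 2 2 (.l 5 0) (.a 3 1 (.l 6 0) (.l 7 0)))))) (.a 1 1 (.l 5 1) (.a 1 2 (.l 22 1) (.l 24 0)))) (.b 2 8 (.x [5, 13]) (.b 2 16 (.x [5, 13]) (.b 2 32 (.x [5, 13]) (.b 3 1 (.l 11 3) (.b 3 2 (.l 12 3) (.b 3 4 (.b 2 2 (.l 33 2) (.l 38 2)) (.x [5, 14]))))))))) (.x [2, 24])) (.a 2 4 (.a 0 1 (.a 1 1 (.l 0 0) (.a 1 2 (.l 1 0) (.a 2 1 (.l 4 0) (.a 2 2 (.l 5 0) (.a 3 1 (.l 6 0) (.l 7 0)))))) (.a 1 1 (.l 5 1) (.a 1 2 (.l 22 1) (.l 24 0)))) (.b 2 16 (.a 4 2 (.a 2 2 (.b 3 2 (.l 12 3) (.b 3 4 (.l 18 2) (.b 3 8 (.l 19 2) (.x [8, 22])))) (.b 2 16 (.x [5, 13]) (.b 2 32 (.x [5, 13]) (.b 3 1 (.l 11 3) (.b 3 2 (.l 12 3) (.b 3 4 (.b 2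 2 (.l 33 2) (.l 38 2)) (.x [5, 14]))))))) (.x [2, 24])) (.b 2 32 (.a 4 2 (.a 2 2 (.b 3 2 (.l 12 3) (.b 3 4 (.l 18 2) (.b 3 8 (.l 19 2) (.x [8, 22])))) (.b 2 16 (.x [5, 13]) (.b 2 32 (.x [5, 13]) (.b 3 1 (.l 11 3) (.b 3 2 (.l 12 3) (.b 3 4 (.b 2 2 (.l 33 2) (.l 38 2)) (.x [5, 14]))))))) (.x [2, 24])) (.a 2 2 (.a 0 1 (.a 1 1 (.l 0 0) (.a 1 2 (.l 1 0) (.a 2 1 (.l 4 0) (.a 2 2 (.l 5 0) (.a 3 1 (.l 6 0) (.l 7 0)))))) (.a 1 1 (.l 1 1) (.a 1 2 (.b 2 2 (.l 12 2) (.l 18 1)) (.l 22 0)))) (.a 4 2 (.b 3 2 (.l 12 3) (.b 3 4 (.b 2 2 (.l 33 2) (.l 38 2)) (.x [5, 14]))) (.x [2, 20]))))))))))))))))) (.x [0, 10])]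

theorem comb9 (D : ℕ) (hD : 9 ≤ D) : CombAt W 12 cs D :=
  combAt_lin (T := T9) (states := states9) (facts := facts9) (bcs := csF1) (ts := ts9)
    (p0 := 12) hD (by decide +kernel) (fun _ hc => List.mem_append_left _ hc)
    (by decide +kernel) (by decide +kernel) (by decide +kernel) (by simp [states9])

end StrongArb.H44
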