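import Pool.Agent.Lib.MP_39c2b7_co.H44.Certs

/-! Low vertices. -/

namespace StrongArb.H44

open StrongArb

lemma cs4_sub : ∀ c ∈ cs4, c ∈ cs := fun _ hc =>
  List.mem_append_right _ (List.mem_append_right _ (List.mem_append_left _ hc))

theorem low4 : LowAt cs 4 2 :=
  lowAt_of (T := 0x300300300700003b03b03b00000000003d00000000003e00000003e03e)
    (facts := [(0, 1), (28672, 0)]) (bcs := cs4)
    (ts := [(.a 1 4 (.a 2 4 (.a 3 4 (.l 3 1) (.x [0, 0, 1, 1])) (.x [0, 1, 0, 1])) (.x [1, 0, 0, 1]))])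
    (root := (.a 0 1 (.l 1 0) (.a 0 2 (.l 2 0) (.a 1 1 (.l 1 1) (.a 1 2 (.l 2 1) (.a 2 1 (.l 1 2) (.a 2 2 (.l 2 2) (.a 3 1 (.l 1 3) (.a 3 2 (.l 2 3) (.a 0 4 (.a 1 4 (.a 2 4 (.l 3 0) (.l 4 2)) (.l 4 1)) (.l 4 0)))))))))))
    (by norm_num) (by norm_num) (by decide +kernel) cs4_sub (by decide +kernel)
    (by decide +kernel) (by decide +kernel) (by decide +kernel)

lemma cs5_sub : ∀ c ∈ cs5, c ∈ cs := fun _ hc =>
  List.mem_append_right _ (List.mem_append_right _ (List.mem_append_right _ (List.mem_append_left _ hc)))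

theorem low5 : LowAt cs 5 1 :=
  lowAt_of (T := 0x3903903903d00003b03b03b03b03d03b03b00000003d00003b03d00000000003b03b03d00000000003d03d00000000000003e00000000003e03e)
    (facts := [(0, 1), (28672, 0)]) (bcs := cs5)
    (ts := [(.a 1 2 (.l 2 0) (.a 2 2 (.a 3 2 (.l 2 2) (.l 4 1)) (.l 3 0)))])
    (root := (.a 0 1 (.l 1 0) (.a 0 8 (.x [0, 0, 0, 0, 1]) (.a 0 16 (.x [0, 0, 0, 0, 1]) (.a 0 32 (.x [0, 0, 0, 0, 1]) (.a 1 1 (.l 1 1) (.a 1 8 (.x [1, 0, 0, 0, 0]) (.a 1 16 (.x [1, 0, 0, 0, 0]) (.a 1 32 (.x [1, 0, 0, 0, 0]) (.a 2 1 (.l 1 2) (.a 2 8 (.x [0, 1, 0, 0, 0]) (.a 2 16 (.x [0, 1, 0, 0, 0]) (.a 2 32 (.x [0, 1, 0, 0, 0]) (.a 3 1 (.l 1 3) (.a 3 8 (.x [0, 0, 1, 0, 0]) (.a 3 16 (.x [0, 0, 1, 0, 0]) (.a 3 32 (.x [0, 0, 1, 0, 0]) (.a 4 1 (.l 1 4) (.a 4 8 (.x [0, 0, 0, 1, 0]) (.a 4 16 (.x [0, 0, 0, 1, 0]) (.a 4 32 (.x [0, 0, 0, 1, 0]) (.a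 0 2 (.l 7 0) (.a 1 2 (.l 7 1) (.a 2 2 (.l 5 3) (.a 3 2 (.l 5 4) (.l 6 0))))))))))))))))))))))))))
    (by norm_num) (by norm_num) (by decide +kernel) cs5_sub (by decide +kernel)
    (by decide +kernel) (by decide +kernel) (by decide +kernel)

end StrongArb.H44
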