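import Pool.Agent.Lib.MP_39c2b7_co.H44.D7
import Pool.Agent.Lib.MP_39c2b7_co.H44.D8
import Pool.Agent.Lib.MP_39c2b7_co.H44.D9
import Pool.Agent.Lib.MP_39c2b7_co.H44.Low
import Pool.Agent.Lib.MP_39c2b7_co.H44.CertsOk

/-!
# Strong arboricity: all discharging data

`W` (weights, `M = 12`), `cs` (hub certificates), `valid`, `hubok`, `low4`, `low5`, `comb`.
-/

namespace StrongArb.H44

open StrongArb

theorem comb (D : ℕ) (hD : 7 ≤ D) : CombAt W 12 cs D := by
  rcases Nat.lt_or_ge D 9 with h | h
  · have h2 : D = 7 ∨ D = 8 := by omega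
    rcases h2 with h2 | h2
    · subst h2
      exact comb7
    · subst h2
      exact comb8
  · exact comb9 D h

end StrongArb.H44
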