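import Pool.Agent.Lib.MP_39c2b7_co.Interfaces2

/-!
# Strong arboricity: checking bounds on status sequences

A mask is a natural number; the field of six bits at position `12 * j` stands for the values
`4, ..., 9` of `A j`, the field at `12 * j + 6` for those of `B j`.  `Hit c A B`: some value is
marked in `c`.  A mask `c` is valid if all good pairs of sequences hit it.
-/

namespace StrongArb.H44

open StrongArb

/-- some value of the sequences is marked in the mask `c` -/
def Hit (c : ℕ) (A B : ℕ → ℕ) : Prop :=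
  ∃ j, c.testBit (12 * j + (A j - 4)) = true ∨ c.testBit (12 * j + 6 + (B j - 4)) = true

/-- values between four and nine -/
def Rng (A : ℕ → ℕ) : Prop := ∀ i, 4 ≤ A i ∧ A i ≤ 9

/-- `c` is contained in `s` -/
def subB (c s : ℕ) : Bool := Nat.beq (Nat.land c s) c

lemma subB_testBit {c s : ℕ} (h : subB c s = true) {k : ℕ} (hk : c.testBit k = true) :
    s.testBit k = true := by
  unfold subB at h
  have h1 : c &&& s = c := Nat.eq_of_beq_eq_true h
  have h2 : (c &&& s).testBit k = true := by rw [h1]; exact hk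
  rw [Nat.testBit_and] at h2
  simp only [Bool.and_eq_true] at h2
  exact h2.2

lemma Hit.mono {c s : ℕ} {A B : ℕ → ℕ} (h : subB c s = true) (hc : Hit c A B) : Hit s A B := by
  obtain ⟨j, hj | hj⟩ := hc
  · exact ⟨j, Or.inl (subB_testBit h hj)⟩
  · exact ⟨j, Or.inr (subB_testBit h hj)⟩

lemma Hit.or {c d : ℕ} {A B : ℕ → ℕ} (h : Hit (c ||| d) A B) : Hit c A B ∨ Hit d A B := by
  obtain ⟨j, hj | hj⟩ := h
  · rw [Nat.testBit_or] at hj
    simp only [Bool.or_eq_true] at hj
    exact hj.imp (fun h => ⟨j, Or.inl h⟩) (fun h => ⟨j, Or.inl h⟩)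
  · rw [Nat.testBit_or] at hj
    simp only [Bool.or_eq_true] at hj
    exact hj.imp (fun h => ⟨j, Or.inr h⟩) (fun h => ⟨j, Or.inr h⟩)

lemma not_hit_zero {A B : ℕ → ℕ} : ¬ Hit 0 A B := by
  rintro ⟨j, hj | hj⟩ <;> simp at hj

lemma lt_six_of_testBit {X k : ℕ} (hX : X < 64) (h : X.testBit k = true) : k < 6 := by
  by_contra hk
  have : X < 2 ^ k := lt_of_lt_of_le hX (by
    calc (64 : ℕ) = 2 ^ 6 := by norm_num
      _ ≤ 2 ^ k := Nat.pow_le_pow_right (by norm_num) (by omega))
  rw [Nat.testBit_lt_two_pow this] at h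
  exact absurd h (by simp)

/-- a mask inside one `A`-field -/
lemma hit_A {X j : ℕ} {A B : ℕ → ℕ} (hX : X < 64) (hA : Rng A) (hB : Rng B)
    (h : Hit (X <<< (12 * j)) A B) : X.testBit (A j - 4) = true := by
  obtain ⟨i, hi | hi⟩ := h
  · rw [Nat.testBit_shiftLeft] at hi
    simp only [Bool.and_eq_true, decide_eq_true_eq] at hi
    have h6 := lt_six_of_testBit hX hi.2
    have := hA i
    have hij : i = j := by omega
    subst hij
    have e : 12 * i + (A i - 4) - 12 * i = A i - 4 := by omega
    rw [e] at hi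
    exact hi.2
  · rw [Nat.testBit_shiftLeft] at hi
    simp only [Bool.and_eq_true, decide_eq_true_eq] at hi
    have h6 := lt_six_of_testBit hX hi.2
    have := hB i
    omega

/-- a mask inside one `B`-field -/
lemma hit_B {X j : ℕ} {A B : ℕ → ℕ} (hX : X < 64) (hA : Rng A) (hB : Rng B)
    (h : Hit (X <<< (12 * j + 6)) A B) : X.testBit (B j - 4) = true := by
  obtain ⟨i, hi | hi⟩ := h
  · rw [Nat.testBit_shiftLeft] at hi
    simp only [Bool.and_eq_true, decide_eq_true_eq] at hi
    have h6 := lt_six_of_testBit hX hi.2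
    have := hA i
    omega
  · rw [Nat.testBit_shiftLeft] at hi
    simp only [Bool.and_eq_true, decide_eq_true_eq] at hi
    have h6 := lt_six_of_testBit hX hi.2
    have := hB i
    have hij : i = j := by omega
    subst hij
    have e : 12 * i + 6 + (B i - 4) - (12 * i + 6) = B i - 4 := by omega
    rw [e] at hi
    exact hi.2

lemma compl_lt {X : ℕ} (hX : X < 64) : 63 ^^^ X < 64 := by
  have := Nat.xor_lt_two_pow (n := 6) (x := 63) (y := X) (by norm_num) (by simpa using hX)
  simpa using this

lemma compl_testBit {X k : ℕ} (hX : X < 64) (h1 : X.testBit k = true)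
    (h2 : (63 ^^^ X).testBit k = true) : False := by
  have hk := lt_six_of_testBit hX h1
  rw [Nat.testBit_xor, h1] at h2
  have h3 : (63 : ℕ).testBit k = true := by
    interval_cases k <;> decide
  rw [h3] at h2
  simp at h2

/-- proof trees -/
inductive Tr : Type
  /-- the mask number `k`, rotated by `r`, is contained in the state -/
  | l (k r : ℕ) : Tr
  /-- all values of the field number `v` are marked -/
  | e (v : ℕ) : Tr
  /-- case distinction: the value `A j` lies in `X` or not -/
  | a (j X : ℕ) (s t : Tr) : Tr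
  /-- case distinction: the value `B j` lies in `X` or not -/
  | b (j X : ℕ) (s t : Tr) : Tr
  /-- case distinction on `B i = B (i + 1)` when `A (i + 1) = 4` -/
  | g (i X : ℕ) (s t : Tr) : Tr
  /-- other leaves -/
  | x (d : List ℕ) : Tr

/-- the parameters of the checker -/
structure Par where
  rot : ℕ → ℕ → ℕ
  rok : ℕ → Bool
  nx : ℕ → ℕ
  tab : ℕ → ℕ
  xb : List ℕ → ℕ → Bool

/-- the checker -/
def chk (p : Par) (K : ℕ) : Tr → ℕ → Bool
  | .l k r, s => Nat.blt k K && p.rok r && subB (p.rot (p.tab k) r) s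
  | .e v, s => subB (63 <<< (6 * v)) s
  | .a j X t u, s => Nat.blt X 64 && chk p K t (s ||| ((63 ^^^ X) <<< (12 * j))) &&
      chk p K u (s ||| (X <<< (12 * j)))
  | .b j X t u, s => Nat.blt X 64 && chk p K t (s ||| ((63 ^^^ X) <<< (12 * j + 6))) &&
      chk p K u (s ||| (X <<< (12 * j + 6)))
  | .g i X t u, s => Nat.blt X 64 && subB (62 <<< (12 * p.nx i)) s &&
      chk p K t (s ||| ((63 ^^^ X) <<< (12 * i + 6)) ||| ((63 ^^^ X) <<< (12 * p.nx i + 6))) &&
      chk p K u (s ||| (X <<< (12 * i + 6)) ||| (X <<< (12 * p.nx i + 6)))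
  | .x d, s => p.xb d s

lemma eq_four_of {s j : ℕ} {A B : ℕ → ℕ} (hA : Rng A) (h : subB (62 <<< (12 * j)) s = true)
    (hs : ¬ Hit s A B) : A j = 4 := by
  by_contra hne
  apply hs
  refine Hit.mono h ⟨j, Or.inl ?_⟩
  rw [Nat.testBit_shiftLeft]
  have := hA j
  have e : 12 * j + (A j - 4) - 12 * j = A j - 4 := by omega
  rw [e]
  have h2 : 12 * j + (A j - 4) ≥ 12 * j := by omega
  simp only [h2, decide_true, Bool.true_and]
  have h3 : A j - 4 = 1 ∨ A j - 4 = 2 ∨ A j - 4 = 3 ∨ A j - 4 = 4 ∨ A j - 4 = 5 := by omega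
  rcases h3 with h3 | h3 | h3 | h3 | h3 <;> rw [h3] <;> decide

lemma full_field {v : ℕ} {A B : ℕ → ℕ} (hA : Rng A) (hB : Rng B) : Hit (63 <<< (6 * v)) A B := by
  have key : ∀ k, k < 6 → (63 : ℕ).testBit k = true := by
    intro k hk
    interval_cases k <;> decide
  obtain ⟨w, hw | hw⟩ : ∃ w, v = 2 * w ∨ v = 2 * w + 1 := ⟨v / 2, by omega⟩
  · refine ⟨w, Or.inl ?_⟩
    have := hA w
    rw [Nat.testBit_shiftLeft]
    have e : 12 * w + (A w - 4) - 6 * v = A w - 4 := by omega
    rw [e, key _ (by omega)]
    simp only [Bool.and_true, decide_eq_true_eq]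
    omega
  · refine ⟨w, Or.inr ?_⟩
    have := hB w
    rw [Nat.testBit_shiftLeft]
    have e : 12 * w + 6 + (B w - 4) - 6 * v = B w - 4 := by omega
    rw [e, key _ (by omega)]
    simp only [Bool.and_true, decide_eq_true_eq]
    omega

/-- what the checker is allowed to use -/
structure Sound (p : Par) (K : ℕ) (Good P : (ℕ → ℕ) → (ℕ → ℕ) → Prop) : Prop where
  rngA : ∀ A B, Good A B → Rng A
  rngB : ∀ A B, Good A B → Rng B
  nx : ∀ A B, Good A B → ∀ i, A (p.nx i) = 4 → B i = B (p.nx i)
  rot : ∀ k r, k < K → p.rok r = true → ∀ A B, Good A B → Hit (p.rot (p.tab k) r) A B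
  xb : ∀ d s, p.xb d s = true → ∀ A B, Good A B → Hit s A B ∨ P A B

theorem chk_sound {p : Par} {K : ℕ} {Good P : (ℕ → ℕ) → (ℕ → ℕ) → Prop}
    (h : Sound p K Good P) : ∀ (t : Tr) (s : ℕ), chk p K t s = true →
      ∀ A B, Good A B → Hit s A B ∨ P A B := by
  intro t
  induction t with
  | l k r =>
    intro s hc A B hg
    simp only [chk, Bool.and_eq_true] at hc
    have hk : k < K := by
      have := hc.1.1
      rw [Nat.blt_eq] at this
      exact this
    exact Or.inl (Hit.mono hc.2 (h.rot k r hk hc.1.2 A B hg))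
  | e v =>
    intro s hc A B hg
    exact Or.inl (Hit.mono hc (full_field (h.rngA A B hg) (h.rngB A B hg)))
  | a j X t u iht ihu =>
    intro s hc A B hg
    simp only [chk, Bool.and_eq_true] at hc
    have hX : X < 64 := by
      have := hc.1.1
      rw [Nat.blt_eq] at this
      exact this
    have hA := h.rngA A B hg
    have hB := h.rngB A B hg
    rcases iht _ hc.1.2 A B hg with h1 | h1
    · rcases ihu _ hc.2 A B hg with h2 | h2
      · rcases h1.or with h1 | h1
        · exact Or.inl h1
        · rcases h2.or with h2 | h2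
          · exact Or.inl h2
          · exact (compl_testBit hX (hit_A hX hA hB h2) (hit_A (compl_lt hX) hA hB h1)).elim
      · exact Or.inr h2
    · exact Or.inr h1
  | b j X t u iht ihu =>
    intro s hc A B hg
    simp only [chk, Bool.and_eq_true] at hc
    have hX : X < 64 := by
      have := hc.1.1
      rw [Nat.blt_eq] at this
      exact this
    have hA := h.rngA A B hg
    have hB := h.rngB A B hg
    rcases iht _ hc.1.2 A B hg with h1 | h1
    · rcases ihu _ hc.2 A B hg with h2 | h2
      · rcases h1.or with h1 | h1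
        · exact Or.inl h1
        · rcases h2.or with h2 | h2
          · exact Or.inl h2
          · exact (compl_testBit hX (hit_B hX hA hB h2) (hit_B (compl_lt hX) hA hB h1)).elim
      · exact Or.inr h2
    · exact Or.inr h1
  | g i X t u iht ihu =>
    intro s hc A B hg
    simp only [chk, Bool.and_eq_true] at hc
    have hX : X < 64 := by
      have := hc.1.1.1
      rw [Nat.blt_eq] at this
      exact this
    have hA := h.rngA A B hg
    have hB := h.rngB A B hg
    by_cases hs : Hit s A B
    · exact Or.inl hs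
    have h4 := eq_four_of hA hc.1.1.2 hs
    have hBB := h.nx A B hg i h4
    rcases iht _ hc.1.2 A B hg with h1 | h1
    · rcases ihu _ hc.2 A B hg with h2 | h2
      · have k1 : (63 ^^^ X).testBit (B i - 4) = true := by
          rcases h1.or with h1 | h1
          · rcases h1.or with h1 | h1
            · exact absurd h1 hs
            · exact hit_B (compl_lt hX) hA hB h1
          · rw [hBB]
            exact hit_B (compl_lt hX) hA hB h1
        have k2 : X.testBit (B i - 4) = true := by
          rcases h2.or with h2 | h2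
          · rcases h2.or with h2 | h2
            · exact absurd h2 hs
            · exact hit_B hX hA hB h2
          · rw [hBB]
            exact hit_B hX hA hB h2
        exact (compl_testBit hX k2 k1).elim
      · exact Or.inr h2
    · exact Or.inr h1
  | x d =>
    intro s hc A B hg
    exact h.xb d s hc A B hg

/-- shift of a sequence -/
def sh (A : ℕ → ℕ) (r : ℕ) : ℕ → ℕ := fun i => A (i + r)

/-- rotation of a mask with `n` positions -/
def rotc (n x r : ℕ) : ℕ := ((x <<< (12 * r)) % 2 ^ (12 * n)) ||| (x >>> (12 * (n - r)))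

lemma hit_rotc {n x r : ℕ} {A B : ℕ → ℕ} (hx : x < 2 ^ (12 * n)) (hr : r < n)
    (hA : Rng A) (hB : Rng B) (pA : ∀ i, A (i + n) = A i) (pB : ∀ i, B (i + n) = B i)
    (h : Hit x (sh A r) (sh B r)) : Hit (rotc n x r) A B := by
  have hlt : ∀ k, x.testBit k = true → k < 12 * n := by
    intro k hk
    by_contra hc
    rw [Nat.testBit_lt_two_pow (lt_of_lt_of_le hx
      (Nat.pow_le_pow_right (by norm_num) (by omega)))] at hk
    exact absurd hk (by simp)
  have key : ∀ (C : ℕ → ℕ) (o : ℕ), Rng C → (∀ i, C (i + n) = C i) → o = 0 ∨ o = 6 → ∀ j,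
      x.testBit (12 * j + o + (C (j + r) - 4)) = true →
      ∃ j', (rotc n x r).testBit (12 * j' + o + (C j' - 4)) = true := by
    intro C o hC pC ho j hj
    have h1 := hlt _ hj
    have h2 := hC (j + r)
    by_cases hjn : j + r < n
    · refine ⟨j + r, ?_⟩
      unfold rotc
      rw [Nat.testBit_or, Nat.testBit_mod_two_pow, Nat.testBit_shiftLeft]
      have e : 12 * (j + r) + o + (C (j + r) - 4) - 12 * r = 12 * j + o + (C (j + r) - 4) := by
        omega
      rw [e, hj]
      have e1 : 12 * (j + r) + o + (C (j + r) - 4) < 12 * n := by omega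
      have e2 : 12 * (j + r) + o + (C (j + r) - 4) ≥ 12 * r := by omega
      simp only [e1, e2, decide_true, Bool.and_self, Bool.true_or]
    · refine ⟨j + r - n, ?_⟩
      have e0 : C (j + r - n) = C (j + r) := by
        have := pC (j + r - n)
        rw [← this]
        congr 1
        omega
      unfold rotc
      rw [Nat.testBit_or, Nat.testBit_shiftRight, e0]
      have e : 12 * (n - r) + (12 * (j + r - n) + o + (C (j + r) - 4)) =
          12 * j + o + (C (j + r) - 4) := by omega
      rw [e, hj, Bool.or_true]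
  obtain ⟨j, hj | hj⟩ := h
  · obtain ⟨j', hj'⟩ := key A 0 hA pA (Or.inl rfl) j (by simpa [sh] using hj)
    exact ⟨j', Or.inl (by simpa using hj')⟩
  · obtain ⟨j', hj'⟩ := key B 6 hB pB (Or.inr rfl) j (by simpa [sh] using hj)
    exact ⟨j', Or.inr hj'⟩

lemma hit_shl {x r : ℕ} {A B : ℕ → ℕ} (h : Hit x (sh A r) (sh B r)) :
    Hit (x <<< (12 * r)) A B := by
  obtain ⟨j, hj | hj⟩ := h
  · refine ⟨j + r, Or.inl ?_⟩
    rw [Nat.testBit_shiftLeft]
    have e : 12 * (j + r) + (A (j + r) - 4) - 12 * r = 12 * j + (A (j + r) - 4) := by omega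
    have e2 : 12 * (j + r) + (A (j + r) - 4) ≥ 12 * r := by omega
    rw [e]
    simp only [e2, decide_true, Bool.true_and]
    exact hj
  · refine ⟨j + r, Or.inr ?_⟩
    rw [Nat.testBit_shiftLeft]
    have e : 12 * (j + r) + 6 + (B (j + r) - 4) - 12 * r = 12 * j + 6 + (B (j + r) - 4) := by
      omega
    have e2 : 12 * (j + r) + 6 + (B (j + r) - 4) ≥ 12 * r := by omega
    rw [e]
    simp only [e2, decide_true, Bool.true_and]
    exact hj

/-! ## masks of the certificates -/

/-- the mask of one list of statuses, starting at bit `o` -/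
def clA : List ℕ → ℕ → ℕ
  | [], _ => 0
  | x :: t, o => (if x = 0 then 0 else if x < 4 then 63 <<< o
      else (63 ^^^ (1 <<< (x - 4))) <<< o) ||| clA t (o + 12)

lemma clA_bit : ∀ (a : List ℕ) (o i v : ℕ), a.getD i 0 ≠ 0 → v ≠ a.getD i 0 → 4 ≤ v → v ≤ 9 →
    (clA a o).testBit (o + 12 * i + (v - 4)) = true := by
  intro a
  induction a with
  | nil => intro o i v h; simp at h
  | cons x t ih =>
    intro o i v h1 h2 h3 h4
    unfold clA
    rw [Nat.testBit_or]
    cases i with
    | zero =>
      simp only [List.getD_cons_zero] at h1 h2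
      have key : ∀ k, k < 6 → (63 : ℕ).testBit k = true := by
        intro k hk
        interval_cases k <;> decide
      rw [if_neg h1]
      by_cases hx : x < 4
      · rw [if_pos hx, Nat.testBit_shiftLeft]
        have e : o + 12 * 0 + (v - 4) - o = v - 4 := by omega
        have e2 : o + 12 * 0 + (v - 4) ≥ o := by omega
        rw [e, key _ (by omega)]
        simp only [e2, decide_true, Bool.and_self, Bool.true_or]
      · rw [if_neg hx, Nat.testBit_shiftLeft]
        have e : o + 12 * 0 + (v - 4) - o = v - 4 := by omega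
        have e2 : o + 12 * 0 + (v - 4) ≥ o := by omega
        rw [e, Nat.testBit_xor, key _ (by omega), Nat.testBit_shiftLeft]
        have e3 : (1 : ℕ).testBit (v - 4 - (x - 4)) = decide (v - 4 - (x - 4) = 0) := by
          rcases Nat.eq_zero_or_pos (v - 4 - (x - 4)) with hh | hh
          · rw [hh]; decide
          · obtain ⟨k, hk⟩ : ∃ k, v - 4 - (x - 4) = k + 1 := ⟨v - 4 - (x - 4) - 1, by omega⟩
            rw [hk, Nat.testBit_succ]
            simp
        rw [e3]
        have e4 : (decide (v - 4 ≥ x - 4) && decide (v - 4 - (x - 4) = 0)) = false := by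
          simp only [Bool.and_eq_false_iff, decide_eq_false_iff_not]
          omega
        rw [e4]
        simp only [e2, decide_true, Bool.xor_false, Bool.and_self, Bool.true_or]
    | succ i =>
      simp only [List.getD_cons_succ] at h1 h2
      have := ih (o + 12) i v h1 h2 h3 h4
      have e : o + 12 * (i + 1) + (v - 4) = o + 12 + 12 * i + (v - 4) := by ring
      rw [e, this, Bool.or_true]

/-- the mask of a certificate -/
def cl (c : HubCert) : ℕ := clA c.a 0 ||| clA c.b 6

lemma hit_cl {c : HubCert} {A B : ℕ → ℕ} (hA : Rng A) (hB : Rng B) (h : ¬ c.Holds A B 0) :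
    Hit (cl c) A B := by
  have hex : ∃ j, (c.a.getD j 0 ≠ 0 → A j = c.a.getD j 0) →
      (c.b.getD j 0 ≠ 0 ∧ B j ≠ c.b.getD j 0) := by
    by_contra hcon
    apply h
    intro j
    by_contra hj
    apply hcon
    refine ⟨j, fun h1 => ?_⟩
    by_contra h2
    apply hj
    rw [Nat.zero_add]
    refine ⟨h1, fun h3 => ?_⟩
    by_contra h4
    exact h2 ⟨h3, h4⟩
  obtain ⟨j, hj⟩ := hex
  by_cases h1 : c.a.getD j 0 ≠ 0 ∧ A j ≠ c.a.getD j 0
  · refine ⟨j, Or.inl ?_⟩
    unfold cl
    rw [Nat.testBit_or]
    have := clA_bit c.a 0 j (A j) h1.1 h1.2 (hA j).1 (hA j).2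
    rw [Nat.zero_add] at this
    rw [this, Bool.true_or]
  · have h2 : c.b.getD j 0 ≠ 0 ∧ B j ≠ c.b.getD j 0 := by
      apply hj
      intro h3
      by_contra h4
      exact h1 ⟨h3, h4⟩
    refine ⟨j, Or.inr ?_⟩
    unfold cl
    rw [Nat.testBit_or]
    have := clA_bit c.b 6 j (B j) h2.1 h2.2 (hB j).1 (hB j).2
    have e : 6 + 12 * j + (B j - 4) = 12 * j + 6 + (B j - 4) := by ring
    rw [e] at this
    rw [this, Bool.or_true]

/-- the mask for two consecutive fours at the positions `j`, `j + 1` -/
def cl44 (j : ℕ) : ℕ := (62 <<< (12 * j)) ||| (62 <<< (12 * (j + 1)))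

lemma hit_cl44 {j : ℕ} {A B : ℕ → ℕ} (hA : Rng A) (h : ¬ (A j = 4 ∧ A (j + 1) = 4)) :
    Hit (cl44 j) A B := by
  have key : ∀ i s, subB (62 <<< (12 * i)) s = true → A i ≠ 4 → Hit s A B := by
    intro i s hs hne
    by_contra hc
    exact hne (eq_four_of hA hs hc)
  have hsub : ∀ x y : ℕ, subB x (x ||| y) = true ∧ subB y (x ||| y) = true := by
    intro x y
    constructor
    · unfold subB
      have : x &&& (x ||| y) = x := by
        apply Nat.eq_of_testBit_eq
        intro i
        simp only [Nat.testBit_and, Nat.testBit_or]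
        cases x.testBit i <;> cases y.testBit i <;> rfl
      show Nat.beq (x &&& (x ||| y)) x = true
      rw [this]
      exact Nat.beq_refl x
    · unfold subB
      have : y &&& (x ||| y) = y := by
        apply Nat.eq_of_testBit_eq
        intro i
        simp only [Nat.testBit_and, Nat.testBit_or]
        cases x.testBit i <;> cases y.testBit i <;> rfl
      show Nat.beq (y &&& (x ||| y)) y = true
      rw [this]
      exact Nat.beq_refl y
  by_cases h4 : A j = 4
  · exact key (j + 1) _ (hsub _ _).2 (fun h5 => h ⟨h4, h5⟩)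
  · exact key j _ (hsub _ _).1 h4

end StrongArb.H44
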